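import Pool.Agent.Helper3.HS2.AvgGood

/-!
# Finite averages along the orbit of the generator
-/

set_option autoImplicit false
set_option linter.unusedSectionVars false
set_option linter.unusedVariables false

open Set MeasureTheory Metric Filter Topology
open scoped NNReal ENNReal Function

namespace Pool.Agent.Helper3.HS4

open Pool.Agent.Helper3.HS

variable {V : Type*} [NormedAddCommGroup V] {p : ℕ} [hp : Fact p.Prime]

/-- The average of `φ` over the first `p ^ N` points of the orbit under the generator. -/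
noncomputable def favg (D : PreDat V p) (N : ℕ) {E : Type*} [NormedAddCommGroup E]
    [NormedSpace ℝ E] (φ : V → E) (x : V) : E :=
  ((p : ℝ) ^ N)⁻¹ • ∑ j ∈ Finset.range (p ^ N), φ (D.g (j : ℤ_[p]) x)

section

variable {D : PreDat V p} {N : ℕ} {E : Type*} [NormedAddCommGroup E] [NormedSpace ℝ E] {φ : V → E}

theorem pow_pos' (p : ℕ) [hp : Fact p.Prime] (N : ℕ) : 0 < (p : ℝ) ^ N :=
  pow_pos (by exact_mod_cast hp.out.pos) N

theorem favg_continuous (hφ : Continuous φ) : Continuous (favg D N φ) := by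
  unfold favg
  apply Continuous.const_smul
  apply continuous_finsetSum
  intro j _
  exact hφ.comp (D.hg _)

theorem favg_step {x : V} (hx : x ∈ D.U) : favg D N φ (D.g 1 x) - favg D N φ x =
    ((p : ℝ) ^ N)⁻¹ • (φ (D.g ((p ^ N : ℕ) : ℤ_[p]) x) - φ x) := by
  unfold favg
  rw [← smul_sub]
  congr 1
  have h1 : ∀ j : ℕ, D.g (j : ℤ_[p]) (D.g 1 x) = D.g ((j + 1 : ℕ) : ℤ_[p]) x := by
    intro j
    rw [← D.hgadd _ _ x hx]
    congr 1
    push_cast
    ring
  simp_rw [h1]
  have h2 := Finset.sum_range_succ (fun j : ℕ => φ (D.g (j : ℤ_[p]) x)) (p ^ N)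
  have h3 := Finset.sum_range_succ' (fun j : ℕ => φ (D.g (j : ℤ_[p]) x)) (p ^ N)
  rw [h2] at h3
  simp only [Nat.cast_zero, D.hg0 x hx] at h3
  rw [sub_eq_sub_iff_add_eq_add, ← h3]
  abel

/-- The displacement of a point under one period, divided by the length of the period. -/
noncomputable def disp (D : PreDat V p) (N : ℕ) (x : V) : ℝ :=
  ((p : ℝ) ^ N)⁻¹ * dist (D.g ((p ^ N : ℕ) : ℤ_[p]) x) x

theorem disp_nonneg (D : PreDat V p) (N : ℕ) (x : V) : 0 ≤ disp D N x :=
  mul_nonneg (inv_nonneg.mpr (pow_pos' p N).le) dist_nonneg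

theorem dist_favg_step {x : V} (hx : x ∈ D.U) (hφ : ∀ u v, dist (φ u) (φ v) ≤ dist u v) :
    dist (favg D N φ (D.g 1 x)) (favg D N φ x) ≤ disp D N x := by
  have hpos := pow_pos' p N
  rw [dist_eq_norm, favg_step hx, norm_smul, norm_inv, Real.norm_of_nonneg hpos.le,
    ← dist_eq_norm]
  exact mul_le_mul_of_nonneg_left (hφ _ _) (inv_nonneg.mpr hpos.le)

theorem dist_favg_le {x x' : V} {ω : ℝ} (hφ : ∀ u v, dist (φ u) (φ v) ≤ dist u v)
    (h : ∑ j ∈ Finset.range (p ^ N), dist (D.g (j : ℤ_[p]) x) (D.g (j : ℤ_[p]) x') ≤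
      (p : ℝ) ^ N * ω) :
    dist (favg D N φ x) (favg D N φ x') ≤ ω := by
  have hpos := pow_pos' p N
  unfold favg
  rw [dist_eq_norm, ← smul_sub, ← Finset.sum_sub_distrib, norm_smul, norm_inv,
    Real.norm_of_nonneg hpos.le, inv_mul_le_iff₀ hpos]
  refine (norm_sum_le _ _).trans (le_trans ?_ h)
  apply Finset.sum_le_sum
  intro j hj
  rw [← dist_eq_norm]
  exact hφ _ _

theorem favg_const {v : E} {x : V} : favg D N (fun _ => v) x = v := by
  have hpos := pow_pos' p N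
  unfold favg
  rw [Finset.sum_const, Finset.card_range, ← Nat.cast_smul_eq_nsmul ℝ, smul_smul]
  push_cast
  rw [inv_mul_cancel₀ hpos.ne', one_smul]

theorem dist_favg_const {x : V} {v : E} {δ : ℝ}
    (h : ∀ j < p ^ N, dist (φ (D.g (j : ℤ_[p]) x)) v ≤ δ) : dist (favg D N φ x) v ≤ δ := by
  have hpos := pow_pos' p N
  have h2 : favg D N φ x - v = favg D N (fun u => φ u - v) x := by
    unfold favg
    rw [Finset.sum_sub_distrib, Finset.sum_const, Finset.card_range, smul_sub,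
      ← Nat.cast_smul_eq_nsmul ℝ, smul_smul]
    push_cast
    rw [inv_mul_cancel₀ hpos.ne', one_smul]
  rw [dist_eq_norm, h2]
  unfold favg
  rw [norm_smul, norm_inv, Real.norm_of_nonneg hpos.le, inv_mul_le_iff₀ hpos]
  refine (norm_sum_le _ _).trans ?_
  calc ∑ j ∈ Finset.range (p ^ N), ‖φ (D.g (j : ℤ_[p]) x) - v‖
      ≤ ∑ _j ∈ Finset.range (p ^ N), δ := by
        apply Finset.sum_le_sum
        intro j hj
        rw [← dist_eq_norm]
        exact h j (Finset.mem_range.mp hj)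
    _ = (p : ℝ) ^ N * δ := by
        rw [Finset.sum_const, Finset.card_range, nsmul_eq_mul]
        push_cast
        rfl

theorem le_favg {ψ : V → ℝ} (hψ : ∀ u, 0 ≤ ψ u) {m : ℕ} (hm : m ≤ N) {x : V} {s : ℝ}
    (h : ∀ b : ℤ_[p], s ≤ ψ (D.g ((p : ℤ_[p]) ^ m * b) x)) :
    s / (p : ℝ) ^ m ≤ favg D N ψ x := by
  have hpos := pow_pos' p N
  have hposm := pow_pos' p m
  unfold favg
  rw [smul_eq_mul, le_inv_mul_iff₀ hpos]
  have h1 : ∑ i ∈ Finset.range (p ^ (N - m)), ψ (D.g ((p : ℤ_[p]) ^ m * (i : ℤ_[p])) x) ≤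
      ∑ j ∈ Finset.range (p ^ N), ψ (D.g (j : ℤ_[p]) x) := by
    have hinj : InjOn (fun i : ℕ => p ^ m * i) (Finset.range (p ^ (N - m)) : Set ℕ) := by
      intro i _ i' _ hii
      exact Nat.eq_of_mul_eq_mul_left (pow_pos hp.out.pos m) hii
    have h2 : ∑ i ∈ Finset.range (p ^ (N - m)), ψ (D.g ((p : ℤ_[p]) ^ m * (i : ℤ_[p])) x) =
        ∑ j ∈ (Finset.range (p ^ (N - m))).image (fun i : ℕ => p ^ m * i),
          ψ (D.g (j : ℤ_[p]) x) := by
      rw [Finset.sum_image hinj]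
      apply Finset.sum_congr rfl
      intro i _
      push_cast
      rfl
    rw [h2]
    apply Finset.sum_le_sum_of_subset_of_nonneg
    · intro j hj
      obtain ⟨i, hi, rfl⟩ := Finset.mem_image.mp hj
      rw [Finset.mem_range] at hi ⊢
      calc p ^ m * i < p ^ m * p ^ (N - m) := Nat.mul_lt_mul_of_pos_left hi (pow_pos hp.out.pos m)
        _ = p ^ N := by rw [← pow_add, Nat.add_sub_cancel' hm]
    · intro j _ _
      exact hψ _
  refine le_trans ?_ h1
  calc (p : ℝ) ^ N * (s / (p : ℝ) ^ m) = (p : ℝ) ^ (N - m) * s := by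
        have e : (p : ℝ) ^ N = (p : ℝ) ^ m * (p : ℝ) ^ (N - m) := by
          rw [← pow_add, Nat.add_sub_cancel' hm]
        rw [e]
        field_simp
    _ = ∑ _i ∈ Finset.range (p ^ (N - m)), s := by
        rw [Finset.sum_const, Finset.card_range, nsmul_eq_mul]
        push_cast
        rfl
    _ ≤ _ := Finset.sum_le_sum fun i _ => h _

theorem exists_pos_of_favg {ψ : V → ℝ} {x : V} {t : ℝ} (ht : 0 ≤ t) (h : t < favg D N ψ x) :
    ∃ j : ℕ, 0 < ψ (D.g (j : ℤ_[p]) x) := by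
  by_contra hcon
  push Not at hcon
  have hpos := pow_pos' p N
  unfold favg at h
  rw [smul_eq_mul] at h
  have h1 : ∑ j ∈ Finset.range (p ^ N), ψ (D.g (j : ℤ_[p]) x) ≤ 0 :=
    Finset.sum_nonpos fun j _ => hcon j
  have h2 : ((p : ℝ) ^ N)⁻¹ * ∑ j ∈ Finset.range (p ^ N), ψ (D.g (j : ℤ_[p]) x) ≤ 0 :=
    mul_nonpos_of_nonneg_of_nonpos (inv_nonneg.mpr hpos.le) h1
  linarith

end

/-- A bump function. -/
noncomputable def bmp (q : V) (r : ℝ) (x : V) : ℝ := max (r - dist x q) 0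

theorem bmp_nonneg (q : V) (r : ℝ) (x : V) : 0 ≤ bmp q r x := le_max_right _ _

theorem bmp_lip (q : V) (r : ℝ) (x z : V) : dist (bmp q r x) (bmp q r z) ≤ dist x z := by
  rw [Real.dist_eq]
  unfold bmp
  refine (abs_max_sub_max_le_abs _ _ _).trans ?_
  have e : r - dist x q - (r - dist z q) = dist z q - dist x q := by ring
  rw [e, dist_comm x z]
  exact abs_dist_sub_le z x q

theorem bmp_continuous (q : V) (r : ℝ) : Continuous (bmp q r) := by
  unfold bmp
  exact (continuous_const.sub (continuous_id.dist continuous_const)).max continuous_const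

theorem mem_of_bmp_pos {q : V} {r : ℝ} {x : V} (h : 0 < bmp q r x) : x ∈ closedBall q r := by
  unfold bmp at h
  rw [lt_max_iff] at h
  rcases h with h | h
  · rw [mem_closedBall]; linarith
  · exact (lt_irrefl _ h).elim

theorem le_bmp (q : V) (r : ℝ) (x : V) : r - dist x q ≤ bmp q r x := le_max_left _ _

/-- The local data at a moved point. -/
theorem exists_data (D : PreDat V p) {z : V} (hz : z ∈ D.U) (hm : ∃ a, D.g a z ≠ z)
    {qs : ℕ → V} (hqs : DenseRange qs) :
    ∃ n m : ℕ, closedBall (qs n) (1 / ((m : ℝ) + 1)) ⊆ D.U ∧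
      (∀ a : ℤ_[p], IsUnit a → ∀ w ∈ closedBall (qs n) (1 / ((m : ℝ) + 1)),
        D.g a w ∉ closedBall (qs n) (1 / ((m : ℝ) + 1))) ∧
      ∃ s > 0, ∃ N₀ : ℕ, ∀ᶠ x in 𝓝 z, ∀ N ≥ N₀, s ≤ favg D N (bmp (qs n) (1 / ((m : ℝ) + 1))) x := by
  have hjc : ∀ a, ContinuousAt (fun q : ℤ_[p] × V => D.g q.1 q.2) (a, z) := by
    intro a
    apply D.hgj.continuousAt
    exact (isOpen_univ.prod D.hU).mem_nhds ⟨mem_univ _, hz⟩
  -- the units
  have hunit : {a : ℤ_[p] | IsUnit a} = {a : ℤ_[p] | ‖a‖ = 1} := by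
    ext a
    exact PadicInt.isUnit_iff
  have hUc : IsCompact {a : ℤ_[p] | IsUnit a} := by
    rw [hunit]
    exact (isClosed_eq continuous_norm continuous_const).isCompact
  have hgz : Continuous (fun a : ℤ_[p] => D.g a z) := by
    have h1 : Continuous (fun a : ℤ_[p] => ((a, z) : ℤ_[p] × V)) := by fun_prop
    exact D.hgj.comp_continuous h1 (fun a => ⟨mem_univ _, hz⟩)
  obtain ⟨a₀, ha₀, hmin⟩ := hUc.exists_isMinOn ⟨1, isUnit_one⟩
    ((hgz.dist continuous_const).continuousOn (s := {a : ℤ_[p] | IsUnit a}) (f := fun a => dist (D.g a z) z))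
  set δ := dist (D.g a₀ z) z with hδ
  have hδ0 : 0 < δ := dist_pos.mpr (moved_unit D hz hm ha₀)
  have hev : ∀ᶠ x in 𝓝 z, ∀ a ∈ {a : ℤ_[p] | IsUnit a}, δ / 2 < dist (D.g a x) z := by
    apply hUc.eventually_forall_of_forall_eventually
    intro a ha
    have h1 : ContinuousAt (fun q : V × ℤ_[p] => D.g q.2 q.1) (z, a) :=
      ContinuousAt.comp (g := fun q : ℤ_[p] × V => D.g q.1 q.2)
        (f := fun q : V × ℤ_[p] => (q.2, q.1)) (hjc a) continuous_swap.continuousAt
    have h2 : ContinuousAt (fun q : V × ℤ_[p] => dist (D.g q.2 q.1) z) (z, a) :=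
      h1.dist continuousAt_const
    have h3 : δ / 2 < dist (D.g a z) z := by
      have := hmin ha
      simp only [mem_ofPred_eq] at this
      linarith
    exact h2.eventually (lt_mem_nhds h3)
  obtain ⟨ρ₁, hρ₁, hball⟩ := Metric.eventually_nhds_iff_ball.mp hev
  obtain ⟨ρ₂, hρ₂, hballU⟩ := Metric.isOpen_iff.mp D.hU z hz
  set ρ := min (min ρ₁ ρ₂) (δ / 2) with hρ
  have hρ0 : 0 < ρ := lt_min (lt_min hρ₁ hρ₂) (by positivity)
  obtain ⟨m, hm1⟩ := exists_nat_one_div_lt (show (0 : ℝ) < ρ / 2 by positivity)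
  set r : ℝ := 1 / ((m : ℝ) + 1) with hr
  have hr0 : 0 < r := by rw [hr]; positivity
  obtain ⟨n, hn⟩ := hqs.exists_dist_lt z (show (0 : ℝ) < r / 4 by positivity)
  have hsub : closedBall (qs n) r ⊆ ball z ρ := by
    intro w hw
    rw [mem_closedBall] at hw
    rw [mem_ball]
    have := dist_triangle w (qs n) z
    rw [dist_comm (qs n) z] at this
    linarith
  refine ⟨n, m, ?_, ?_, ?_⟩
  · intro w hw
    exact hballU (ball_subset_ball ((min_le_left _ _).trans (min_le_right _ _)) (hsub hw))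
  · intro a ha w hw hw'
    have h1 := hball w (ball_subset_ball ((min_le_left _ _).trans (min_le_left _ _)) (hsub hw)) a ha
    have h2 := hsub hw'
    rw [mem_ball] at h2
    have h3 : ρ ≤ δ / 2 := min_le_right _ _
    linarith
  · have h1 : ∀ᶠ q : ℤ_[p] × V in 𝓝 (0, z), dist (D.g q.1 q.2) z < r / 4 := by
      have h2 : ContinuousAt (fun q : ℤ_[p] × V => dist (D.g q.1 q.2) z) (0, z) :=
        (hjc 0).dist continuousAt_const
      have h3 : dist (D.g 0 z) z < r / 4 := by rw [D.hg0 z hz, dist_self]; positivity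
      exact h2.eventually (gt_mem_nhds h3)
    rw [nhds_prod_eq] at h1
    obtain ⟨A, hA, B, hB, hAB⟩ := Filter.eventually_prod_iff.mp h1
    obtain ⟨ε, hε, hεA⟩ := Metric.eventually_nhds_iff.mp hA
    have hp1 : (1 : ℝ) < p := by exact_mod_cast hp.out.one_lt
    obtain ⟨m₁, hm₁⟩ := exists_pow_lt_of_lt_one hε (inv_lt_one_of_one_lt₀ hp1)
    refine ⟨r / 2 / (p : ℝ) ^ m₁, by have := pow_pos' p m₁; positivity, m₁, ?_⟩
    filter_upwards [hB] with x hx N hN
    apply le_favg (bmp_nonneg _ _) hN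
    intro b
    have h2 : dist ((p : ℤ_[p]) ^ m₁ * b) 0 < ε := by
      rw [dist_zero_right, norm_mul, norm_pow, PadicInt.norm_p]
      calc ((p : ℝ)⁻¹) ^ m₁ * ‖b‖ ≤ ((p : ℝ)⁻¹) ^ m₁ * 1 := by
            apply mul_le_mul_of_nonneg_left (PadicInt.norm_le_one b)
            positivity
        _ < ε := by rw [mul_one]; exact hm₁
    have h3 := hAB (hεA h2) hx
    simp only at h3
    have h4 := le_bmp (qs n) r (D.g ((p : ℤ_[p]) ^ m₁ * b) x)
    have h5 := dist_triangle (D.g ((p : ℤ_[p]) ^ m₁ * b) x) z (qs n)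
    linarith

end Pool.Agent.Helper3.HS4
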