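import Pool.Agent.Helper3.HS4.Avg4

/-!
# The measure of the exceptional pairs
-/

set_option autoImplicit false
set_option linter.unusedSectionVars false
set_option linter.unusedVariables false

open Set MeasureTheory Metric Filter Topology
open scoped NNReal ENNReal Function

namespace Pool.Agent.Helper3.HS4

open Pool.Agent.Helper3.HS

variable {d : ℕ}

/-- The exceptional pairs. -/
def Bad (F : (Fin (d + 1) → ℝ) → (Fin (d + 1) → ℝ)) (b : (Fin (d + 1) → ℝ) → ℝ)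
    (c : Fin (d + 1) → ℝ) (r : ℝ) (τ : (Fin (d + 1) → ℝ) → ℝ) : Set ((Fin (d + 1) → ℝ) × ℝ) :=
  {z | ∃ u ∈ closedBall c r, dist (F u) z.1 ≤ 2 * τ u ∧ |b u - z.2| ≤ 2 * τ u}

theorem volume_bad_le {F : (Fin (d + 1) → ℝ) → (Fin (d + 1) → ℝ)} {b : (Fin (d + 1) → ℝ) → ℝ}
    {c : Fin (d + 1) → ℝ} {r : ℝ} {τ : (Fin (d + 1) → ℝ) → ℝ} {m : ℕ}
    {E : Fin m → Set (Fin (d + 1) → ℝ)} {ρ : Fin m → ℝ} (hρ : ∀ i, 0 ≤ ρ i)
    (hcov : closedBall c r ⊆ ⋃ i, E i)
    (hF : ∀ i, ∀ u ∈ E i ∩ closedBall c r, ∀ u' ∈ E i ∩ closedBall c r, dist (F u) (F u') ≤ ρ i)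
    (hb : ∀ i, ∀ u ∈ E i ∩ closedBall c r, ∀ u' ∈ E i ∩ closedBall c r, dist (b u) (b u') ≤ ρ i)
    (hτ : ∀ i, ∀ u ∈ E i ∩ closedBall c r, τ u ≤ ρ i) :
    volume (Bad F b c r τ) ≤ ENNReal.ofReal (6 ^ (d + 2) * ∑ i, ρ i ^ (d + 2)) := by
  classical
  -- a point of each set
  have hex : ∀ i, ∃ x : Fin (d + 1) → ℝ, (E i ∩ closedBall c r).Nonempty →
      x ∈ E i ∩ closedBall c r := by
    intro i
    by_cases h : (E i ∩ closedBall c r).Nonempty
    · obtain ⟨x, hx⟩ := h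
      exact ⟨x, fun _ => hx⟩
    · exact ⟨0, fun h' => absurd h' h⟩
  choose x hx using hex
  have hsub : Bad F b c r τ ⊆ ⋃ i, closedBall (F (x i)) (3 * ρ i) ×ˢ
      closedBall (b (x i)) (3 * ρ i) := by
    rintro ⟨y, t⟩ ⟨u, hu, h1, h2⟩
    obtain ⟨i, hi⟩ := mem_iUnion.mp (hcov hu)
    have hui : u ∈ E i ∩ closedBall c r := ⟨hi, hu⟩
    have hxi := hx i ⟨u, hui⟩
    have hti := hτ i u hui
    refine mem_iUnion.mpr ⟨i, ?_, ?_⟩
    · rw [mem_closedBall]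
      have h3 := hF i u hui (x i) hxi
      have h4 := dist_triangle y (F u) (F (x i))
      rw [dist_comm y (F u)] at h4
      simp only at h1 ⊢
      linarith
    · rw [mem_closedBall]
      have h3 := hb i u hui (x i) hxi
      have h4 := dist_triangle t (b u) (b (x i))
      rw [dist_comm t (b u), Real.dist_eq (b u) t] at h4
      simp only at h2 ⊢
      linarith
  refine (measure_mono hsub).trans ((measure_iUnion_fintype_le _ _).trans ?_)
  have hcell : ∀ i, volume (closedBall (F (x i)) (3 * ρ i) ×ˢ closedBall (b (x i)) (3 * ρ i)) =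
      ENNReal.ofReal (6 ^ (d + 2) * ρ i ^ (d + 2)) := by
    intro i
    have h3 : 0 ≤ 3 * ρ i := by linarith [hρ i]
    have h6 : 0 ≤ 2 * (3 * ρ i) := by linarith
    rw [Measure.volume_eq_prod, Measure.prod_prod, Real.volume_pi_closedBall _ h3,
      Real.volume_closedBall, Fintype.card_fin, ← ENNReal.ofReal_mul (pow_nonneg h6 _),
      ← pow_succ, ← mul_pow]
    congr 2
    ring
  rw [Finset.sum_congr rfl (fun i _ => hcell i), ← ENNReal.ofReal_sum_of_nonneg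
    (fun i _ => mul_nonneg (by positivity) (pow_nonneg (hρ i) _)), Finset.mul_sum]

/-- Almost all pairs leave the exceptional sets of a summable family. -/
theorem ae_ae_bad {F : ℕ → (Fin (d + 1) → ℝ) → (Fin (d + 1) → ℝ)}
    {ι : Type*} [Countable ι] {b : ι → ℕ → (Fin (d + 1) → ℝ) → ℝ} {c : Fin (d + 1) → ℝ}
    {r : ℝ} {τ : ℕ → (Fin (d + 1) → ℝ) → ℝ}
    (h : ∀ i k, volume (Bad (F k) (b i k) c r (τ k)) ≤ ENNReal.ofReal ((1 / 2 : ℝ) ^ k)) :
    ∀ᵐ y ∂(volume : Measure (Fin (d + 1) → ℝ)), ∀ i, ∀ᵐ t ∂(volume : Measure ℝ),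
      ∀ᶠ k in atTop, (y, t) ∉ Bad (F k) (b i k) c r (τ k) := by
  rw [ae_all_iff]
  intro i
  have hsum : ∑' k, volume (Bad (F k) (b i k) c r (τ k)) ≠ ∞ := by
    refine ne_top_of_le_ne_top ?_ (ENNReal.tsum_le_tsum (h i))
    have h1 : Summable (fun k : ℕ => (1 / 2 : ℝ) ^ k) := summable_geometric_two
    rw [← ENNReal.ofReal_tsum_of_nonneg (fun k => by positivity) h1]
    exact ENNReal.ofReal_ne_top
  have h2 := ae_eventually_notMem hsum
  rw [Measure.volume_eq_prod] at h2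
  exact Measure.ae_ae_of_ae_prod h2

end Pool.Agent.Helper3.HS4
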