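import Pool.Agent.Helper3.HS4.Defs4
import Mathlib.Analysis.SpecialFunctions.Pow.Real

/-!
# Examples of slow maps
-/

set_option autoImplicit false
set_option linter.unusedSectionVars false
set_option linter.unusedVariables false

open Set Metric Filter Topology
open scoped NNReal

namespace Pool.Agent.Helper3.HS4

open Pool.Agent.Helper3.HS

theorem exists_cell {m : ℕ} (hm : 0 < m) {r : ℝ} (hr : 0 < r) {v : ℝ} (h0 : 0 ≤ v)
    (h1 : v ≤ 2 * r) : ∃ k : Fin m, |v - (2 * (k : ℕ) + 1) * (r / m)| ≤ r / m := by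
  have hm' : (0 : ℝ) < m := by exact_mod_cast hm
  set s : ℝ := v * m / (2 * r) with hs
  have hs0 : 0 ≤ s := by positivity
  have hsm : s ≤ m := by
    rw [hs, div_le_iff₀ (by positivity)]
    nlinarith
  have hv : v = 2 * s * (r / m) := by
    rw [hs]
    field_simp
  obtain ⟨k, hk, hk0, hk1⟩ : ∃ k : ℕ, k < m ∧ (k : ℝ) ≤ s ∧ s ≤ k + 1 := by
    by_cases h : ⌊s⌋₊ < m
    · exact ⟨⌊s⌋₊, h, Nat.floor_le hs0, (Nat.lt_floor_add_one s).le⟩
    · push Not at h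
      have h2 : (m : ℝ) ≤ s := (Nat.le_floor_iff hs0).mp h
      refine ⟨m - 1, by omega, ?_, ?_⟩
      · have : ((m - 1 : ℕ) : ℝ) ≤ m := by exact_mod_cast Nat.sub_le m 1
        linarith
      · have : ((m - 1 : ℕ) : ℝ) + 1 = m := by
          have h3 : m - 1 + 1 = m := by omega
          exact_mod_cast h3
        linarith
  refine ⟨⟨k, hk⟩, ?_⟩
  have e : v - (2 * (k : ℝ) + 1) * (r / m) = (2 * (s - k) - 1) * (r / m) := by rw [hv]; ring
  simp only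
  rw [e, abs_mul, abs_of_pos (show (0 : ℝ) < r / m by positivity)]
  have h2 : |2 * (s - k) - 1| ≤ 1 := by rw [abs_le]; constructor <;> linarith
  calc |2 * (s - (k : ℝ)) - 1| * (r / m) ≤ 1 * (r / m) :=
        mul_le_mul_of_nonneg_right h2 (by positivity)
    _ = r / m := one_mul _

theorem exists_cubes {d : ℕ} (c : Fin (d + 1) → ℝ) {r : ℝ} (hr : 0 < r) {m : ℕ} (hm : 0 < m) :
    ∃ x : Fin (m ^ (d + 1)) → (Fin (d + 1) → ℝ), ∀ u ∈ closedBall c r, ∃ i,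
      dist u (x i) ≤ r / m := by
  have hm' : (0 : ℝ) < m := by exact_mod_cast hm
  have hcard : Fintype.card (Fin (d + 1) → Fin m) = m ^ (d + 1) := by
    rw [Fintype.card_fun, Fintype.card_fin, Fintype.card_fin]
  set φ := Fintype.equivFinOfCardEq hcard with hφ
  set x : (Fin (d + 1) → Fin m) → (Fin (d + 1) → ℝ) := fun k i =>
    c i - r + (2 * ((k i : ℕ) : ℝ) + 1) * (r / m) with hx
  refine ⟨fun i => x (φ.symm i), fun u hu => ?_⟩
  have hcell : ∀ i, ∃ k : Fin m, |(u i - c i + r) - (2 * (k : ℕ) + 1) * (r / m)| ≤ r / m := by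
    intro i
    have h3 := (dist_pi_le_iff hr.le).mp (mem_closedBall.mp hu) i
    rw [Real.dist_eq, abs_le] at h3
    exact exists_cell hm hr (by linarith) (by linarith)
  choose k hk using hcell
  refine ⟨φ k, ?_⟩
  simp only [Equiv.symm_apply_apply]
  rw [dist_pi_le_iff (by positivity)]
  intro i
  rw [Real.dist_eq, hx]
  simp only
  have e : u i - (c i - r + (2 * ((k i : ℕ) : ℝ) + 1) * (r / m)) =
      (u i - c i + r) - (2 * ((k i : ℕ) : ℝ) + 1) * (r / m) := by ring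
  rw [e]
  exact hk i

variable {d : ℕ} {X : Type*} [MetricSpace X] {p : ℕ} [hp : Fact p.Prime]

theorem exists_compact_nhds {x₀ : X} (hx₀ : x₀ ∈ regPts (d + 1) X) {W : Set X} (hW : W ∈ 𝓝 x₀) :
    ∃ K ⊆ W, IsCompact K ∧ K ∈ 𝓝 x₀ ∧ ∃ A : ℝ, 0 < A ∧ ∀ h : ℝ, 0 < h → h ≤ 1 →
      ∃ (m : ℕ) (E : Fin (m ^ (d + 1)) → Set X), (m : ℝ) ≤ A / h ∧ K ⊆ ⋃ i, E i ∧
        ∀ i, ∀ y ∈ E i ∩ K, ∀ z ∈ E i ∩ K, dist y z ≤ h := by
  obtain ⟨e, C, hxe, hC, hC'⟩ := hx₀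
  set u₀ := e x₀ with hu₀
  have hu₀t : u₀ ∈ e.target := e.map_source hxe
  have hsu₀ : e.symm u₀ = x₀ := e.left_inv hxe
  have h2 : e.target ∩ e.symm ⁻¹' W ∈ 𝓝 u₀ := by
    apply inter_mem (e.open_target.mem_nhds hu₀t)
    apply (e.symm.continuousAt hu₀t).preimage_mem_nhds
    rw [hsu₀]
    exact hW
  obtain ⟨r₁, hr₁0, hball⟩ := Metric.nhds_basis_closedBall.mem_iff.mp h2
  have hB₁ : closedBall u₀ r₁ ⊆ e.target := fun u hu => (hball hu).1
  have hWm : ∀ u ∈ closedBall u₀ r₁, e.symm u ∈ W := fun u hu => (hball hu).2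
  have hC0 : (0 : ℝ) ≤ C := C.2
  refine ⟨e.symm '' closedBall u₀ r₁, ?_, ?_, ?_, 2 * C * r₁ + 1, by positivity, ?_⟩
  · rintro _ ⟨u, hu, rfl⟩
    exact hWm u hu
  · exact (isCompact_closedBall _ _).image_of_continuousOn (e.continuousOn_symm.mono hB₁)
  · have h3 : e.source ∩ e ⁻¹' (ball u₀ r₁) ∈ 𝓝 x₀ :=
      inter_mem (e.open_source.mem_nhds hxe)
        ((e.continuousAt hxe).preimage_mem_nhds (ball_mem_nhds _ hr₁0))
    apply mem_of_superset h3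
    rintro y ⟨hy1, hy2⟩
    exact ⟨e y, ball_subset_closedBall hy2, e.left_inv hy1⟩
  · intro h hh0 hh1
    set m : ℕ := ⌊2 * C * r₁ / h⌋₊ + 1 with hm
    have hm0 : 0 < m := Nat.succ_pos _
    have hm0' : (0 : ℝ) < m := by exact_mod_cast hm0
    have hml : 2 * C * r₁ / h ≤ m := by
      rw [hm]
      push_cast
      exact (Nat.lt_floor_add_one _).le
    have hmu : (m : ℝ) ≤ (2 * C * r₁ + 1) / h := by
      rw [hm]
      push_cast
      have h3 := Nat.floor_le (show 0 ≤ 2 * C * r₁ / h by positivity)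
      have h4 : (1 : ℝ) ≤ 1 / h := by rw [le_div_iff₀ hh0]; linarith
      rw [add_div]
      linarith
    obtain ⟨x, hx⟩ := exists_cubes u₀ hr₁0 hm0
    refine ⟨m, fun i => e.symm '' (closedBall u₀ r₁ ∩ closedBall (x i) (r₁ / m)), hmu, ?_, ?_⟩
    · rintro _ ⟨u, hu, rfl⟩
      obtain ⟨i, hi⟩ := hx u hu
      exact mem_iUnion.mpr ⟨i, u, ⟨hu, mem_closedBall.mpr hi⟩, rfl⟩
    · rintro i _ ⟨⟨u, ⟨hu, hui⟩, rfl⟩, -⟩ _ ⟨⟨u', ⟨hu', hui'⟩, rfl⟩, -⟩
      have h3 := hC'.dist_le_mul u (hB₁ hu) u' (hB₁ hu')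
      rw [mem_closedBall] at hui hui'
      have h4 := dist_triangle_right u u' (x i)
      have h5 : dist u u' ≤ 2 * r₁ / m := by
        rw [show 2 * r₁ / (m : ℝ) = r₁ / m + r₁ / m by ring]
        linarith
      calc dist (e.symm u) (e.symm u') ≤ C * dist u u' := h3
        _ ≤ C * (2 * r₁ / m) := mul_le_mul_of_nonneg_left h5 hC0
        _ = 2 * C * r₁ / m := by ring
        _ ≤ h := by
            rw [div_le_iff₀ hm0']
            rw [div_le_iff₀ hh0] at hml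
            linarith

/-- Small mean Lipschitz constants. -/
theorem slowNear_of_mean {x₀ : X} (hx₀ : x₀ ∈ regPts (d + 1) X) {f : X → X} {W : Set X}
    (hW : W ∈ 𝓝 x₀)
    (h : ∀ ε : ℝ, 0 < ε → ∀ N₀ : ℕ, ∃ N ≥ N₀, ∃ L δ : ℝ, 1 ≤ L ∧ 0 < δ ∧ δ ≤ 1 ∧
      (∀ y ∈ W, ∀ z ∈ W, ∑ j ∈ Finset.range (p ^ N), dist (f^[j] y) (f^[j] z) ≤
        (p : ℝ) ^ N * (L * dist y z)) ∧
      (∀ y ∈ W, dist (f^[p ^ N] y) y ≤ δ) ∧ L ^ (d + 1) * δ ≤ ε * (p : ℝ) ^ N) :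
    SlowNear p (d + 1) f x₀ := by
  obtain ⟨K, hKW, -, hK, A, hA, hcov⟩ := exists_compact_nhds hx₀ hW
  refine ⟨K, hK, fun ε hε N₀ => ?_⟩
  obtain ⟨N, hN, L, δ, hL, hδ, hδ1, h1, h2, h3⟩ := h (ε / A ^ (d + 1)) (by positivity) N₀
  have hP : (0 : ℝ) < (p : ℝ) ^ N := pow_pos (by exact_mod_cast hp.out.pos) N
  have hP1 : (1 : ℝ) ≤ (p : ℝ) ^ N := one_le_pow₀ (by exact_mod_cast hp.out.one_lt.le)
  have hL0 : 0 < L := lt_of_lt_of_le one_pos hL
  set ρ : ℝ := δ / (p : ℝ) ^ N with hρ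
  have hρ0 : 0 < ρ := by positivity
  have hρ1 : ρ ≤ 1 := by
    rw [hρ, div_le_one hP]
    exact hδ1.trans hP1
  have hh0 : 0 < ρ / L := by positivity
  have hh1 : ρ / L ≤ 1 := by
    rw [div_le_one hL0]
    exact hρ1.trans hL
  obtain ⟨m, E, hm, hE, hEd⟩ := hcov (ρ / L) hh0 hh1
  refine ⟨N, hN, m ^ (d + 1), E, fun _ => ρ, fun _ => hρ0.le, hE, ?_, ?_, ?_⟩
  · intro i y hy z hz
    refine (h1 y (hKW hy.2) z (hKW hz.2)).trans ?_
    apply mul_le_mul_of_nonneg_left _ hP.le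
    have := hEd i y hy z hz
    calc L * dist y z ≤ L * (ρ / L) := mul_le_mul_of_nonneg_left this hL0.le
      _ = ρ := by field_simp
  · intro i y hy
    refine (h2 y (hKW hy.2)).trans (le_of_eq ?_)
    rw [hρ]
    field_simp
  · rw [Finset.sum_const, Finset.card_univ, Fintype.card_fin, nsmul_eq_mul]
    push_cast
    calc (m : ℝ) ^ (d + 1) * ρ ^ (d + 1 + 1) ≤ (A / (ρ / L)) ^ (d + 1) * ρ ^ (d + 1 + 1) := by
          apply mul_le_mul_of_nonneg_right _ (by positivity)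
          exact pow_le_pow_left₀ (Nat.cast_nonneg _) hm _
      _ = A ^ (d + 1) * (L ^ (d + 1) * ρ) := by
          rw [pow_succ ρ (d + 1), div_pow, div_pow]
          field_simp
      _ = A ^ (d + 1) * (L ^ (d + 1) * δ) / (p : ℝ) ^ N := by rw [hρ]; ring
      _ ≤ ε := by
          rw [div_le_iff₀ hP]
          calc A ^ (d + 1) * (L ^ (d + 1) * δ) ≤ A ^ (d + 1) * (ε / A ^ (d + 1) * (p : ℝ) ^ N) :=
                mul_le_mul_of_nonneg_left h3 (by positivity)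
            _ = ε * (p : ℝ) ^ N := by field_simp

/-- Lipschitz constants of the iterates growing like the root of order `n`. -/
theorem slowNear_of_lip {x₀ : X} (hx₀ : x₀ ∈ regPts (d + 1) X) {f : X → X} {W : Set X}
    (hW : W ∈ 𝓝 x₀) {C : ℝ}
    (hlip : ∀ j : ℕ, ∀ y ∈ W, ∀ z ∈ W, dist (f^[j + 1] y) (f^[j + 1] z) ≤
      C * ((j : ℝ) + 1) ^ (1 / ((d : ℝ) + 1)) * dist y z)
    (hconv : ∀ K : Set X, IsCompact K → ∀ η : ℝ, 0 < η → ∀ᶠ N : ℕ in atTop,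
      ∀ y ∈ K, dist (f^[p ^ N] y) y ≤ η) :
    SlowNear p (d + 1) f x₀ := by
  obtain ⟨K, hKW, hKc, hK, -⟩ := exists_compact_nhds hx₀ hW
  apply slowNear_of_mean hx₀ hK
  intro ε hε N₀
  set C₁ : ℝ := max C 1 with hC₁
  have hC₁1 : 1 ≤ C₁ := le_max_right _ _
  have hC₁0 : 0 < C₁ := lt_of_lt_of_le one_pos hC₁1
  have hCC : C ≤ C₁ := le_max_left _ _
  set η : ℝ := min 1 (ε / C₁ ^ (d + 1)) with hη
  have hη0 : 0 < η := lt_min one_pos (by positivity)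
  obtain ⟨N, hN1, hN2⟩ := ((hconv K hKc η hη0).and (eventually_ge_atTop N₀)).exists
  have hP : (0 : ℝ) < (p : ℝ) ^ N := pow_pos (by exact_mod_cast hp.out.pos) N
  have hP1 : (1 : ℝ) ≤ (p : ℝ) ^ N := one_le_pow₀ (by exact_mod_cast hp.out.one_lt.le)
  have hd0 : (0 : ℝ) ≤ 1 / ((d : ℝ) + 1) := by positivity
  set L : ℝ := C₁ * ((p : ℝ) ^ N) ^ (1 / ((d : ℝ) + 1)) with hL
  have hq1 : (1 : ℝ) ≤ ((p : ℝ) ^ N) ^ (1 / ((d : ℝ) + 1)) := Real.one_le_rpow hP1 hd0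
  have hL1 : 1 ≤ L := by
    calc (1 : ℝ) = 1 * 1 := (one_mul 1).symm
      _ ≤ _ := mul_le_mul hC₁1 hq1 zero_le_one hC₁0.le
  refine ⟨N, hN2, L, η, hL1, hη0, min_le_left _ _, ?_, hN1, ?_⟩
  · intro y hy z hz
    have h1 : ∀ j ∈ Finset.range (p ^ N), dist (f^[j] y) (f^[j] z) ≤ L * dist y z := by
      intro j hj
      rw [Finset.mem_range] at hj
      rcases j with _ | j
      · simp only [Function.iterate_zero, id]
        calc dist y z = 1 * dist y z := (one_mul _).symm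
          _ ≤ _ := mul_le_mul_of_nonneg_right hL1 dist_nonneg
      · refine (hlip j y (hKW hy) z (hKW hz)).trans ?_
        apply mul_le_mul_of_nonneg_right _ dist_nonneg
        have h2 : ((j : ℝ) + 1) ≤ (p : ℝ) ^ N := by exact_mod_cast hj.le
        have h3 : ((j : ℝ) + 1) ^ (1 / ((d : ℝ) + 1)) ≤ ((p : ℝ) ^ N) ^ (1 / ((d : ℝ) + 1)) :=
          Real.rpow_le_rpow (by positivity) h2 hd0
        exact mul_le_mul hCC h3 (by positivity) hC₁0.le
    calc ∑ j ∈ Finset.range (p ^ N), dist (f^[j] y) (f^[j] z)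
        ≤ ∑ _j ∈ Finset.range (p ^ N), L * dist y z := Finset.sum_le_sum h1
      _ = (p : ℝ) ^ N * (L * dist y z) := by
          rw [Finset.sum_const, Finset.card_range, nsmul_eq_mul]
          push_cast
          rfl
  · have h1 : (((p : ℝ) ^ N) ^ (1 / ((d : ℝ) + 1))) ^ (d + 1) = (p : ℝ) ^ N := by
      rw [← Real.rpow_natCast, ← Real.rpow_mul hP.le]
      have : 1 / ((d : ℝ) + 1) * ((d + 1 : ℕ) : ℝ) = 1 := by
        push_cast
        field_simp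
      rw [this, Real.rpow_one]
    rw [hL, mul_pow, h1]
    have h2 : C₁ ^ (d + 1) * η ≤ ε := by
      calc C₁ ^ (d + 1) * η ≤ C₁ ^ (d + 1) * (ε / C₁ ^ (d + 1)) :=
            mul_le_mul_of_nonneg_left (min_le_right _ _) (by positivity)
        _ = ε := by field_simp
    calc C₁ ^ (d + 1) * (p : ℝ) ^ N * η = C₁ ^ (d + 1) * η * (p : ℝ) ^ N := by ring
      _ ≤ ε * (p : ℝ) ^ N := mul_le_mul_of_nonneg_right h2 hP.le

end Pool.Agent.Helper3.HS4
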