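import Pool.Agent.Results.MP_afaf30_gt.SlowGenerator
import Pool.Agent.Helper3.HS4.Lip4

/-!
# An example: iterates with slowly growing Lipschitz constants
-/

set_option autoImplicit false

open Set Metric Filter Topology

namespace Pool.Agent.Helper3.HS4

open Pool.Agent.Helper3.HS

/-- The case of iterates with `d(f^j y, f^j z) ≤ C * j ^ (1 / n) * d(y, z)`. -/
theorem lip_case {d p : ℕ} [Fact p.Prime] {X : Type*} [MetricSpace X]
    [AddAction ℤ_[p] X] [ContinuousVAdd ℤ_[p] X]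
    {R : Set X} (hRo : IsOpen R) (hRd : Dense R) (hRc : IsPreconnected R)
    (hR : R ⊆ regPts (d + 1) X)
    (h : ∀ x ∈ R, ∃ W ∈ 𝓝 x, ∃ (a : ℤ_[p]) (C : ℝ), a ≠ 0 ∧ ∀ j : ℕ, ∀ y ∈ W, ∀ z ∈ W,
        dist ((fun u : X => a +ᵥ u)^[j + 1] y) ((fun u : X => a +ᵥ u)^[j + 1] z) ≤
          C * ((j : ℝ) + 1) ^ (1 / ((d : ℝ) + 1)) * dist y z) :
    ∃ k : ℕ, ∀ (a : ℤ_[p]) (x : X), ((p : ℤ_[p]) ^ k * a) +ᵥ x = x := by
  refine Pool.Agent.Results.MP_afaf30_gt.SlowGenerator.result hRo hRd hRc hR ?_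
  have hiter : ∀ (a : ℤ_[p]) (j : ℕ) (y : X),
      (fun u : X => a +ᵥ u)^[j] y = ((j : ℤ_[p]) * a) +ᵥ y := by
    intro a j y
    induction j with
    | zero => simp
    | succ j ih =>
      rw [Function.iterate_succ_apply', ih, vadd_vadd]
      congr 1
      push_cast
      ring
  have hconv : ∀ (a : ℤ_[p]) (K : Set X), IsCompact K → ∀ η : ℝ, 0 < η →
      ∀ᶠ N : ℕ in atTop, ∀ y ∈ K, dist ((fun u : X => a +ᵥ u)^[p ^ N] y) y ≤ η := by
    intro a K hK η hη
    have h1 : ∀ᶠ b : ℤ_[p] in 𝓝 0, ∀ y ∈ K, dist (b +ᵥ y) y < η := by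
      apply hK.eventually_forall_of_forall_eventually
      intro y _
      have h2 : Continuous (fun q : ℤ_[p] × X => dist (q.1 +ᵥ q.2) q.2) :=
        (continuous_fst.vadd continuous_snd).dist continuous_snd
      have h3 : dist ((0 : ℤ_[p]) +ᵥ y) y < η := by rw [zero_vadd, dist_self]; exact hη
      have h4 : ContinuousAt (fun q : ℤ_[p] × X => dist (q.1 +ᵥ q.2) q.2) (0, y) :=
        h2.continuousAt
      exact h4.eventually (gt_mem_nhds h3)
    have h4 : Tendsto (fun N : ℕ => ((p ^ N : ℕ) : ℤ_[p]) * a) atTop (𝓝 0) := by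
      rw [tendsto_zero_iff_norm_tendsto_zero]
      have hp1 : (1 : ℝ) < p := by exact_mod_cast (Fact.out : p.Prime).one_lt
      have h5 : Tendsto (fun N : ℕ => ((p : ℝ)⁻¹) ^ N * ‖a‖) atTop (𝓝 0) := by
        have := (tendsto_pow_atTop_nhds_zero_of_lt_one (by positivity)
          (inv_lt_one_of_one_lt₀ hp1)).mul_const ‖a‖
        rwa [zero_mul] at this
      refine h5.congr fun N => ?_
      rw [norm_mul]
      push_cast
      rw [norm_pow, PadicInt.norm_p]
    filter_upwards [h4.eventually h1] with N hN y hy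
    rw [hiter]
    exact (hN y hy).le
  refine ⟨∅, countable_empty, fun x hx U hU => ?_⟩
  refine ⟨{x}, ?_, isPreconnected_singleton, subset_closure rfl, ?_⟩
  · rw [singleton_subset_iff]
    exact ⟨mem_of_mem_nhds hU, hx.1⟩
  · intro y hy
    rw [mem_singleton_iff] at hy
    subst hy
    obtain ⟨W, hW, a, C, ha, hlip⟩ := h y hx.1
    exact ⟨⟨a, ha⟩, slowNear_of_lip (hR hx.1) hW hlip (hconv a)⟩

end Pool.Agent.Helper3.HS4
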