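import Pool.Agent.Helper3.HS2.Core1

/-!
# Divisibility of the degree of an almost invariant map

The map `F` and the functions `b i` change at `x` by at most `τ x` under the generator; the pair
`(F x, b i x)` stays at distance more than `2 * τ x` from `(y, t i)`.
-/

set_option autoImplicit false
set_option linter.unusedSectionVars false
set_option linter.unusedVariables false

open Set MeasureTheory Metric Filter Topology
open scoped NNReal ENNReal Function

namespace Pool.Agent.Helper3.HS4

open Pool.Agent.Helper3.HS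

variable {V : Type*} [NormedAddCommGroup V] [NormedSpace ℝ V] [FiniteDimensional ℝ V]
  [MeasurableSpace V] [BorelSpace V] {μ : Measure V} [μ.IsAddHaarMeasure]
  {p : ℕ} [hp : Fact p.Prime]

/-- Excision. -/
theorem HasDeg.excise {U W : Set V} (hU : IsOpen U) (hUb : Bornology.IsBounded U)
    (hW : IsOpen W) (hWU : W ⊆ U) {F : V → V} (hF : ContinuousOn F (closure U)) {y : V}
    (hcov : ∀ x ∈ closure U, F x = y → x ∈ W) {k : ℝ} (hk : HasDeg μ W F y k) :
    HasDeg μ U F y k := by
  have h := HasDeg.sum μ ({()} : Finset Unit) hU hUb (W := fun _ => W) (fun _ _ => hW)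
    (fun _ _ => hWU) (by simp) hF (y := y)
    (fun x hx heq => ⟨(), by simp, hcov x hx heq⟩) (k := fun _ => k) (fun _ _ => hk)
  simpa using h

theorem step_core (D : Dat μ p) {F : V → V} (hF : Continuous F) {M : ℕ} {b : ℕ → V → ℝ}
    (hb : ∀ i, Continuous (b i)) {t : ℕ → ℝ} {τ : V → ℝ} (hτ : ∀ x, 0 ≤ τ x) {y : V}
    (hF1 : ∀ x ∈ D.U, dist (F (D.g 1 x)) (F x) ≤ τ x)
    (hb1 : ∀ i < M, ∀ x ∈ D.U, |b i (D.g 1 x) - b i x| ≤ τ x)
    (hgap : ∀ i < M, ∀ x ∈ D.U, |b i x - t i| ≤ 2 * τ x → 2 * τ x < dist (F x) y)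
    {P : ℕ → Set V} (hP : ∀ i < M, IsCompact (P i)) (hPU : ∀ i < M, P i ⊆ D.U)
    (hPd : ∀ i < M, ∀ j : ℕ, 0 < j → j < p → Disjoint (D.g (j : ℤ_[p]) '' P i) (P i))
    (hcov1 : ∀ i < M, ∀ x ∈ D.U, t i < b i x → ∃ j < p, x ∈ D.g (j : ℤ_[p]) '' P i)
    (hcov : ∀ x ∈ D.U, F x = y → ∃ i < M, t i < b i x)
    (hfr : ∀ x ∈ frontier D.U, F x ≠ y) {k : ℝ} (hk : HasDeg μ D.U F y k) :
    ∃ m : ℤ, k = p * m := by
  classical
  have : ProperSpace V := FiniteDimensional.proper ℝ V
  have hUcl : D.U ⊆ closure D.U := subset_closure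
  -- the labelled pieces
  set L : ℕ → ℕ → Set V := fun i j => D.g (j : ℤ_[p]) '' P i with hL
  have hLc : ∀ i < M, ∀ j, IsCompact (L i j) := fun i hi j => (hP i hi).image (D.hg _)
  have hLU : ∀ i < M, ∀ j, L i j ⊆ D.U := by
    rintro i hi j _ ⟨z, hz, rfl⟩
    exact D.hgU _ z (hPU i hi hz)
  have hLd : ∀ i < M, ∀ j < p, ∀ j' < p, j ≠ j' → Disjoint (L i j) (L i j') := by
    have c1 : ∀ i < M, ∀ j j' : ℕ, j < j' → j' < p → Disjoint (L i j) (L i j') := by
      intro i hi j j' hjj hj'
      rw [Set.disjoint_left]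
      rintro _ ⟨z, hz, rfl⟩ ⟨w, hw, hwz⟩
      have hzU := hPU i hi hz
      have hwU := hPU i hi hw
      have h1 : D.g ((j' - j : ℕ) : ℤ_[p]) w = z := by
        rw [← D.inv (j : ℤ_[p]) hzU, ← hwz, ← D.hgadd _ _ w hwU, Nat.cast_sub hjj.le]
        congr 1
        ring
      exact Set.disjoint_left.mp (hPd i hi (j' - j) (by omega) (by omega)) ⟨w, hw, h1⟩ hz
    intro i hi j hj j' hj' hne
    rcases lt_or_gt_of_ne hne with h | h
    · exact c1 i hi j j' h hj'
    · exact (c1 i hi j' j h hj).symm
  have hLsucc : ∀ i < M, ∀ j, ∀ x ∈ D.U, (D.g 1 x ∈ L i (j + 1) ↔ x ∈ L i j) := by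
    intro i hi j x hx
    constructor
    · rintro ⟨z, hz, hzx⟩
      have hzU := hPU i hi hz
      refine ⟨z, hz, ?_⟩
      rw [← D.inv 1 hx, ← hzx, ← D.hgadd _ _ z hzU]
      congr 1
      push_cast
      ring
    · rintro ⟨z, hz, rfl⟩
      have hzU := hPU i hi hz
      refine ⟨z, hz, ?_⟩
      rw [← D.hgadd _ _ z hzU]
      congr 1
      push_cast
      ring
  -- the chambers
  set S : ℕ → Set V := fun i => {x | t i < b i x ∧ ∀ l < i, b l x < t l} with hS
  have hSo : ∀ i, IsOpen (S i) := by
    intro i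
    have h1 : S i = {x | t i < b i x} ∩ ⋂ l ∈ Finset.range i, {x | b l x < t l} := by
      ext x
      simp [hS]
    rw [h1]
    apply (isOpen_lt continuous_const (hb i)).inter
    apply isOpen_biInter_finset
    intro l _
    exact isOpen_lt (hb l) continuous_const
  set X : ℕ → ℕ → Set V := fun i j => (D.U ∩ S i) ∩ L i j with hX
  have hXo : ∀ i < M, ∀ j < p, IsOpen (X i j) := by
    intro i hi j hj
    have h1 : X i j = (D.U ∩ S i) ∩ (⋃ j' ∈ (Finset.range p).filter (fun j' => j' ≠ j), L i j')ᶜ := by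
      ext x
      constructor
      · rintro ⟨h2, h3⟩
        refine ⟨h2, fun h4 => ?_⟩
        obtain ⟨j', hj', hx'⟩ := mem_iUnion₂.mp h4
        rw [Finset.mem_filter, Finset.mem_range] at hj'
        exact Set.disjoint_left.mp (hLd i hi j hj j' hj'.1 hj'.2.symm) h3 hx'
      · rintro ⟨h2, h3⟩
        refine ⟨h2, ?_⟩
        obtain ⟨j', hj', hx'⟩ := hcov1 i hi x h2.1 h2.2.1
        by_cases hjj : j' = j
        · rw [← hjj]; exact hx'
        · exact (h3 (mem_iUnion₂.mpr ⟨j', by
            rw [Finset.mem_filter, Finset.mem_range]; exact ⟨hj', hjj⟩, hx'⟩)).elim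
    rw [h1]
    apply (D.hU.inter (hSo i)).inter
    rw [isOpen_compl_iff]
    apply IsCompact.isClosed
    apply Finset.isCompact_biUnion
    intro j' _
    exact hLc i hi j'
  have hXcl : ∀ i < M, ∀ j, closure (X i j) ⊆ L i j := fun i hi j =>
    closure_minimal inter_subset_right (hLc i hi j).isClosed
  have hXb : ∀ i, ∀ j, Bornology.IsBounded (X i j) := fun i j =>
    D.hUb.subset (fun x hx => hx.1.1)
  -- the values on the closure
  have hXclb : ∀ i j, ∀ x ∈ closure (X i j), t i ≤ b i x ∧ ∀ l < i, b l x ≤ t l := by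
    intro i j x hx
    have h1 : IsClosed {x | t i ≤ b i x ∧ ∀ l < i, b l x ≤ t l} := by
      have h2 : {x | t i ≤ b i x ∧ ∀ l < i, b l x ≤ t l} =
          {x | t i ≤ b i x} ∩ ⋂ l, ⋂ (_ : l < i), {x | b l x ≤ t l} := by
        ext x
        simp
      rw [h2]
      apply (isClosed_le continuous_const (hb i)).inter
      apply isClosed_iInter
      intro l
      apply isClosed_iInter
      intro _
      exact isClosed_le (hb l) continuous_const
    have h2 : X i j ⊆ {x | t i ≤ b i x ∧ ∀ l < i, b l x ≤ t l} := fun z hz =>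
      ⟨hz.1.2.1.le, fun l hl => (hz.1.2.2 l hl).le⟩
    exact closure_minimal h2 h1 hx
  -- a point of the closure outside the chamber lies on a level
  have hlev : ∀ i < M, ∀ j < p, ∀ x ∈ closure (X i j), x ∉ X i j → ∃ l < M, b l x = t l := by
    intro i hi j hj x hx hnx
    have hxL := hXcl i hi j hx
    have hxU := hLU i hi j hxL
    obtain ⟨h1, h2⟩ := hXclb i j x hx
    by_contra hcon
    push Not at hcon
    apply hnx
    exact ⟨⟨hxU, lt_of_le_of_ne h1 (hcon i hi).symm, fun l hl =>
      lt_of_le_of_ne (h2 l hl) (hcon l (hl.trans hi))⟩, hxL⟩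
  -- the strong chamber condition at the zeros
  have hgap' : ∀ i < M, ∀ x ∈ D.U, dist (F x) y ≤ 2 * τ x →
      b i x < t i - 2 * τ x ∨ t i + 2 * τ x < b i x := by
    intro i hi x hx hd
    by_contra hcon
    push Not at hcon
    have h1 : |b i x - t i| ≤ 2 * τ x := by
      rw [abs_le]
      constructor <;> linarith [hcon.1, hcon.2]
    exact absurd (hgap i hi x hx h1) (not_lt.mpr hd)
  -- degrees of the chambers
  have hXfr : ∀ i < M, ∀ j < p, ∀ x ∈ frontier (X i j), F x ≠ y := by
    intro i hi j hj x hx heq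
    rw [(hXo i hi j hj).frontier_eq] at hx
    obtain ⟨l, hl, hbl⟩ := hlev i hi j hj x hx.1 hx.2
    have hxU := hLU i hi j (hXcl i hi j hx.1)
    have := hgap l hl x hxU (by rw [hbl, sub_self, abs_zero]; linarith [hτ x])
    rw [heq, dist_self] at this
    linarith [hτ x]
  have hex : ∀ i j, ∃ κ : ℝ, i < M → j < p → HasDeg μ (X i j) F y κ := by
    intro i j
    by_cases h : i < M ∧ j < p
    · obtain ⟨κ, hκ⟩ := HasDeg.exists μ (hXo i h.1 j h.2) (hXb i j) hF.continuousOn
        (hXfr i h.1 j h.2)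
      exact ⟨κ, fun _ _ => hκ⟩
    · exact ⟨0, fun h1 h2 => absurd ⟨h1, h2⟩ h⟩
  choose κ hκ using hex
  -- the total degree
  have hsum := HasDeg.sum μ (Finset.range M ×ˢ Finset.range p) D.hU D.hUb
    (W := fun q => X q.1 q.2)
    (fun q hq => by
      rw [Finset.mem_product, Finset.mem_range, Finset.mem_range] at hq
      exact hXo q.1 hq.1 q.2 hq.2)
    (fun q hq x hx => hx.1.1)
    (by
      rintro ⟨i, j⟩ hq ⟨i', j'⟩ hq' hne
      simp only [Finset.coe_product, Finset.coe_range, mem_prod, mem_Iio] at hq hq'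
      change Disjoint (X i j) (X i' j')
      rw [Set.disjoint_left]
      intro x hx hx'
      rcases lt_trichotomy i i' with h | h | h
      · exact lt_asymm (hx'.1.2.2 i h) hx.1.2.1
      · subst h
        have hjj : j ≠ j' := fun h => hne (by rw [h])
        exact Set.disjoint_left.mp (hLd i hq.1 j hq.2 j' hq'.2 hjj) hx.2 hx'.2
      · exact lt_asymm (hx.1.2.2 i' h) hx'.1.2.1)
    hF.continuousOn (y := y)
    (fun x hx heq => by
      have hxU : x ∈ D.U := by
        by_contra hn
        exact hfr x (by rw [D.hU.frontier_eq]; exact ⟨hx, hn⟩) heq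
      have hex : ∃ i, i < M ∧ t i < b i x := hcov x hxU heq
      obtain ⟨hi, hti⟩ := Nat.find_spec hex
      have hmin : ∀ l < Nat.find hex, b l x < t l := by
        intro l hl
        have hlM : l < M := hl.trans hi
        rcases hgap' l hlM x hxU (by rw [heq, dist_self]; linarith [hτ x]) with h | h
        · linarith [hτ x]
        · exact (Nat.find_min hex hl ⟨hlM, by linarith [hτ x]⟩).elim
      obtain ⟨j, hj, hxj⟩ := hcov1 _ hi x hxU hti
      exact ⟨(Nat.find hex, j), by
        rw [Finset.mem_product, Finset.mem_range, Finset.mem_range]; exact ⟨hi, hj⟩,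
        ⟨⟨hxU, hti, hmin⟩, hxj⟩⟩)
    (k := fun q => κ q.1 q.2)
    (fun q hq => by
      rw [Finset.mem_product, Finset.mem_range, Finset.mem_range] at hq
      exact hκ q.1 q.2 hq.1 hq.2)
  have hkeq := HasDeg.unique μ D.hU D.hUb hF.continuousOn hk hsum
  -- one step
  have hstep : ∀ i < M, ∀ j, j + 1 < p → κ i j = κ i (j + 1) := by
    intro i hi j hj1
    have hj : j < p := by omega
    set X' : Set V := D.U ∩ D.g 1 ⁻¹' (X i (j + 1)) with hX'
    have hX'o : IsOpen X' := D.hU.inter ((hXo i hi (j + 1) hj1).preimage (D.hg 1))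
    have hX'b : Bornology.IsBounded X' := D.hUb.subset inter_subset_left
    have hX'L : X' ⊆ L i j := fun x hx => (hLsucc i hi j x hx.1).mp hx.2.2
    have hX'cl : closure X' ⊆ L i j := closure_minimal hX'L (hLc i hi j).isClosed
    have hX'g : ∀ x ∈ closure X', D.g 1 x ∈ closure (X i (j + 1)) := by
      intro x hx
      have h1 : closure X' ⊆ D.g 1 ⁻¹' (closure (X i (j + 1))) :=
        closure_minimal (fun z hz => subset_closure hz.2) (isClosed_closure.preimage (D.hg 1))
      exact h1 hx
    set O : Set V := X i j ∩ X' with hO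
    have hOo : IsOpen O := (hXo i hi j hj).inter hX'o
    have hOb : Bornology.IsBounded O := hX'b.subset inter_subset_right
    -- the frontier of `O`
    have hOfr : ∀ x ∈ frontier O, 2 * τ x < dist (F x) y ∧ x ∈ D.U := by
      intro x hx
      rw [hOo.frontier_eq] at hx
      have h1 : x ∈ closure (X i j) := closure_mono inter_subset_left hx.1
      have h2 : x ∈ closure X' := closure_mono inter_subset_right hx.1
      have hxU : x ∈ D.U := hLU i hi j (hXcl i hi j h1)
      refine ⟨?_, hxU⟩
      by_cases h3 : x ∈ X i j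
      · have h4 : x ∉ X' := fun h => hx.2 ⟨h3, h⟩
        have h5 : D.g 1 x ∉ X i (j + 1) := fun h => h4 ⟨hxU, h⟩
        obtain ⟨l, hl, hbl⟩ := hlev i hi (j + 1) hj1 _ (hX'g x h2) h5
        apply hgap l hl x hxU
        have h6 := hb1 l hl x hxU
        rw [hbl] at h6
        rw [abs_sub_comm]
        linarith [hτ x]
      · obtain ⟨l, hl, hbl⟩ := hlev i hi j hj x h1 h3
        apply hgap l hl x hxU
        rw [hbl, sub_self, abs_zero]
        linarith [hτ x]
    obtain ⟨a, ha⟩ := HasDeg.exists μ hOo hOb hF.continuousOn (y := y) (fun x hx heq => by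
      have := (hOfr x hx).1
      rw [heq, dist_self] at this
      linarith [hτ x])
    -- excision to `X i j`
    have e1 : HasDeg μ (X i j) F y a := by
      apply HasDeg.excise (hXo i hi j hj) (hXb i j) hOo inter_subset_left hF.continuousOn _ ha
      intro x hx heq
      have hxX : x ∈ X i j := by
        by_contra hn
        exact hXfr i hi j hj x (by rw [(hXo i hi j hj).frontier_eq]; exact ⟨hx, hn⟩) heq
      have hxU : x ∈ D.U := hxX.1.1
      have hτx := hτ x
      have hd : dist (F x) y ≤ 2 * τ x := by rw [heq, dist_self]; linarith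
      refine ⟨hxX, hxU, ⟨D.hgU 1 x hxU, ?_, ?_⟩, (hLsucc i hi j x hxU).mpr hxX.2⟩
      · have h1 := hb1 i hi x hxU
        rcases hgap' i hi x hxU hd with h | h
        · linarith [hxX.1.2.1]
        · linarith [(abs_le.mp h1).1]
      · intro l hl
        have h1 := hb1 l (hl.trans hi) x hxU
        rcases hgap' l (hl.trans hi) x hxU hd with h | h
        · linarith [(abs_le.mp h1).2]
        · linarith [hxX.1.2.2 l hl]
    have e2 : κ i j = a := HasDeg.unique μ (hXo i hi j hj) (hXb i j) hF.continuousOn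
      (hκ i j hi hj) e1
    -- homotopy on `O`
    have hFg : Continuous (fun x => F (D.g 1 x)) := hF.comp (D.hg 1)
    have e3 : HasDeg μ O (fun x => F (D.g 1 x)) y a := by
      apply HasDeg.homotopy μ hOo hOb hF.continuousOn hFg.continuousOn ha
      intro x hx s hs heq
      obtain ⟨h1, hxU⟩ := hOfr x hx
      have h2 := hF1 x hxU
      have h3 : F x - y = -(s • (F (D.g 1 x) - F x)) := by
        have : (1 - s) • (F x - y) + s • (F (D.g 1 x) - y) =
            (F x - y) + s • (F (D.g 1 x) - F x) := by module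
        rw [this] at heq
        exact eq_neg_of_add_eq_zero_left heq
      have h4 : dist (F x) y ≤ τ x := by
        rw [dist_eq_norm, h3, norm_neg, norm_smul, Real.norm_of_nonneg hs.1, ← dist_eq_norm]
        calc s * dist (F (D.g 1 x)) (F x) ≤ 1 * τ x := mul_le_mul hs.2 h2 dist_nonneg zero_le_one
          _ = τ x := one_mul _
      linarith [hτ x]
    -- excision to `X'`
    have e4 : HasDeg μ X' (fun x => F (D.g 1 x)) y a := by
      apply HasDeg.excise hX'o hX'b hOo inter_subset_right hFg.continuousOn _ e3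
      intro x hx heq
      have hxL := hX'cl hx
      have hxU : x ∈ D.U := hLU i hi j hxL
      have hgx := hX'g x hx
      have hgU := D.hgU 1 x hxU
      have hgX : D.g 1 x ∈ X i (j + 1) := by
        by_contra hn
        exact hXfr i hi (j + 1) hj1 _ (by
          rw [(hXo i hi (j + 1) hj1).frontier_eq]; exact ⟨hgx, hn⟩) heq
      have hτx := hτ x
      have hd : dist (F x) y ≤ 2 * τ x := by
        have h1 := hF1 x hxU
        rw [heq, dist_comm] at h1
        linarith
      refine ⟨⟨⟨hxU, ?_, ?_⟩, hxL⟩, hxU, hgX⟩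
      · have h1 := hb1 i hi x hxU
        rcases hgap' i hi x hxU hd with h | h
        · linarith [hgX.1.2.1, (abs_le.mp h1).2]
        · linarith
      · intro l hl
        have h1 := hb1 l (hl.trans hi) x hxU
        rcases hgap' l (hl.trans hi) x hxU hd with h | h
        · linarith
        · linarith [hgX.1.2.2 l hl, (abs_le.mp h1).1]
    -- composition with the generator
    have e5 : HasDeg μ X' (fun x => F (D.g 1 x)) y (1 * κ i (j + 1)) := by
      apply HasDeg.comp μ hX'o hX'b (hXo i hi (j + 1) hj1) (hXb i (j + 1)) (D.hg 1) hF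
      · intro x hx heq
        by_contra hn
        exact hXfr i hi (j + 1) hj1 _ (by
          rw [(hXo i hi (j + 1) hj1).frontier_eq]; exact ⟨hX'g x hx, hn⟩) heq
      · intro x hx heq
        have hxc := frontier_subset_closure hx
        have hxU : x ∈ D.U := hLU i hi j (hX'cl hxc)
        rw [hX'o.frontier_eq] at hx
        apply hx.2
        refine ⟨hxU, ?_⟩
        by_contra hn
        exact hXfr i hi (j + 1) hj1 _ (by
          rw [(hXo i hi (j + 1) hj1).frontier_eq]; exact ⟨hX'g x hxc, hn⟩) heq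
      · intro z hz _
        have hzU : z ∈ D.U := hz.1.1
        have h1 : D.g (-1) z ∈ X' := ⟨D.hgU _ z hzU, by
          rw [mem_preimage, D.inv' 1 hzU]; exact hz⟩
        have h2 := D.hpos 1 X' inter_subset_left hX'o _ h1
        rwa [D.inv' 1 hzU] at h2
      · exact hκ i (j + 1) hi hj1
    have e6 := HasDeg.unique μ hX'o hX'b hFg.continuousOn e4 e5
    rw [e2, e6, one_mul]
  have hall : ∀ i < M, ∀ j < p, κ i j = κ i 0 := by
    intro i hi j
    induction j with
    | zero => intro _; rfl
    | succ j ih =>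
      intro hj
      rw [← hstep i hi j hj]
      exact ih (by omega)
  have hint : ∀ i, ∃ m : ℤ, i < M → κ i 0 = m := by
    intro i
    by_cases hi : i < M
    · obtain ⟨m, hm⟩ := HasDeg.int μ (hXo i hi 0 hp.out.pos) (hXb i 0) hF.continuousOn
        (hκ i 0 hi hp.out.pos)
      exact ⟨m, fun _ => hm⟩
    · exact ⟨0, fun h => absurd h hi⟩
  choose m hm using hint
  refine ⟨∑ i ∈ Finset.range M, m i, ?_⟩
  rw [hkeq, Finset.sum_product]
  have h1 : ∀ i ∈ Finset.range M, ∑ j ∈ Finset.range p, κ i j = p * (m i : ℝ) := by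
    intro i hi
    rw [Finset.mem_range] at hi
    rw [Finset.sum_congr rfl (fun j hj => hall i hi j (Finset.mem_range.mp hj)),
      Finset.sum_const, Finset.card_range, nsmul_eq_mul, hm i hi]
  simp only
  rw [Finset.sum_congr rfl h1, ← Finset.mul_sum]
  push_cast
  rfl

end Pool.Agent.Helper3.HS4
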