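import Pool.Agent.Helper3.HS.Defs

/-!
# Slowly growing homeomorphisms
-/

set_option autoImplicit false

open Set Metric Filter Topology

namespace Pool.Agent.Helper3.HS4

/-- The map `f` is slow near the point `x`, in dimension `n` and for the prime `p`: there is a
neighbourhood `W` of `x` such that, for arbitrarily large `N`, `W` has a finite cover by sets `E i`
with numbers `ρ i ≥ 0` and `∑ i, ρ i ^ (n + 1)` as small as we like, such that two points of
`E i ∩ W` have orbits `y, f y, ..., f^[p ^ N - 1] y` at mean distance at most `ρ i`, and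
`f^[p ^ N]` moves the points of `E i ∩ W` by at most `p ^ N * ρ i`. -/
def SlowNear {X : Type*} [MetricSpace X] (p n : ℕ) (f : X → X) (x : X) : Prop :=
  ∃ W ∈ 𝓝 x, ∀ ε : ℝ, 0 < ε → ∀ N₀ : ℕ, ∃ N : ℕ, N₀ ≤ N ∧ ∃ (m : ℕ) (E : Fin m → Set X)
    (ρ : Fin m → ℝ), (∀ i, 0 ≤ ρ i) ∧ W ⊆ ⋃ i, E i ∧
    (∀ i, ∀ y ∈ E i ∩ W, ∀ z ∈ E i ∩ W,
      ∑ j ∈ Finset.range (p ^ N), dist (f^[j] y) (f^[j] z) ≤ (p : ℝ) ^ N * ρ i) ∧
    (∀ i, ∀ y ∈ E i ∩ W, dist (f^[p ^ N] y) y ≤ (p : ℝ) ^ N * ρ i) ∧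
    ∑ i, ρ i ^ (n + 1) ≤ ε

/-- A family `f` of maps is piecewise slow on `R`: all points `x` of `R`, up to a countable set,
are in the closure of connected subsets of `R`, as close to `x` as we like, of points near which
at least one `f a` is slow. -/
def PieceSlow {A X : Type*} [MetricSpace X] (p n : ℕ) (R : Set X) (f : A → X → X) : Prop :=
  ∃ S : Set X, S.Countable ∧ ∀ x ∈ R \ S, ∀ U ∈ 𝓝 x, ∃ C ⊆ U ∩ R, IsPreconnected C ∧
    x ∈ closure C ∧ ∀ y ∈ C, ∃ a, SlowNear p n (f a) y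

end Pool.Agent.Helper3.HS4
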