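import Pool.Agent.Helper3.HS4.Local4
import Pool.Agent.Helper3.HS4.Defs4
import Pool.Agent.HS3.CaseII
import Pool.Agent.HS3.CaseA
import Pool.Agent.HS3.Sigma
import Pool.Agent.HS3.Glob

/-!
# Slow generators: the global theorem
-/

set_option autoImplicit false
set_option linter.unusedSectionVars false
set_option linter.unusedVariables false

open Set MeasureTheory Metric Filter Topology
open scoped NNReal ENNReal Function

namespace Pool.Agent.Helper3.HS4

open Pool.Agent.Helper3.HS Pool.Agent.HS3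

variable {d : ℕ} {X : Type*} [MetricSpace X] {G : Type*} [Group G] [TopologicalSpace G]
  [IsTopologicalGroup G] [MulAction G X] [ContinuousSMul G X] {p : ℕ} [hp : Fact p.Prime]

theorem iter_eq (θ : Multiplicative ℤ_[p] →* G) (j : ℕ) (x : X) :
    (fun y : X => θ (Multiplicative.ofAdd 1) • y)^[j] x =
      θ (Multiplicative.ofAdd (j : ℤ_[p])) • x := by
  induction j with
  | zero => simp
  | succ j ih =>
    rw [Function.iterate_succ_apply', ih, smul_smul, ← map_mul, ← ofAdd_add]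
    congr 3
    push_cast
    ring

theorem mem_Oinf_of_slow {x₀ : X} (hx₀ : x₀ ∈ regPts (d + 1) X) {θ : Multiplicative ℤ_[p] →* G}
    (hθ : Continuous θ)
    (hs : SlowNear p (d + 1) (fun y : X => θ (Multiplicative.ofAdd 1) • y) x₀) :
    x₀ ∈ Oinf X θ := by
  obtain ⟨e, C, hxe, hC, hC'⟩ := hx₀
  obtain ⟨W, hW, hsl⟩ := hs
  set u₀ := e x₀ with hu₀
  have hu₀t : u₀ ∈ e.target := e.map_source hxe
  have hsu₀ : e.symm u₀ = x₀ := e.left_inv hxe
  -- a closed neighbourhood of the identity and a ball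
  have h1 : (fun q : G × X => q.1 • q.2) ⁻¹' e.source ∈ 𝓝 ((1 : G), x₀) := by
    apply (e.open_source.preimage continuous_smul).mem_nhds
    rw [mem_preimage, one_smul]
    exact hxe
  obtain ⟨V₁, hV₁, N₁, hN₁, hVN⟩ := mem_nhds_prod_iff.mp h1
  obtain ⟨V₀, hV₀, hV₀c, hV₀V₁⟩ := exists_mem_nhds_isClosed_subset hV₁
  have h2 : e.target ∩ e.symm ⁻¹' (N₁ ∩ W) ∈ 𝓝 u₀ := by
    apply inter_mem (e.open_target.mem_nhds hu₀t)
    apply (e.symm.continuousAt hu₀t).preimage_mem_nhds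
    rw [hsu₀]
    exact inter_mem hN₁ hW
  obtain ⟨r₁, hr₁0, hball⟩ := Metric.nhds_basis_closedBall.mem_iff.mp h2
  have hB₁ : closedBall u₀ r₁ ⊆ e.target := fun u hu => (hball hu).1
  have hWm : ∀ u ∈ closedBall u₀ r₁, e.symm u ∈ W := fun u hu => (hball hu).2.2
  have hsrc₁ : ∀ g ∈ V₀, ∀ u ∈ closedBall u₀ r₁, g • e.symm u ∈ e.source := fun g hg u hu =>
    hVN (mk_mem_prod (hV₀V₁ hg) (hball hu).2.1)
  obtain ⟨k₁, hk₁⟩ := exists_pow_mem hθ hV₀
  have hclose := unif_close e hB₁ hsrc₁ hV₀ (by positivity : 0 < r₁ / 8)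
  obtain ⟨k₂, hk₂⟩ := exists_pow_mem hθ hclose
  set k := k₁ + k₂ with hk
  set θ' := θ.comp (mulHom ((p : ℤ_[p]) ^ k)) with hθ'
  have hθ'c : Continuous θ' := hθ.comp (continuous_mulHom _)
  have hmem : ∀ a : ℤ_[p], θ' (Multiplicative.ofAdd a) ∈ V₀ ∧ ∀ u ∈ closedBall u₀ r₁,
      dist (e (θ' (Multiplicative.ofAdd a) • e.symm u)) (e ((1 : G) • e.symm u)) < r₁ / 8 := by
    intro a
    have h3 := hk₂ ((p : ℤ_[p]) ^ k₁ * a)
    have e1 : (p : ℤ_[p]) ^ k₂ * ((p : ℤ_[p]) ^ k₁ * a) = (p : ℤ_[p]) ^ k * a := by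
      rw [hk]; ring
    rw [e1] at h3
    exact h3
  have hsrc : ∀ a : ℤ_[p], ∀ u ∈ closedBall u₀ r₁,
      θ' (Multiplicative.ofAdd a) • e.symm u ∈ e.source := fun a u hu => hsrc₁ _ (hmem a).1 u hu
  have hpk := pow_pos' p k
  have hpk1 : (1 : ℝ) ≤ (p : ℝ) ^ k := one_le_pow₀ (by exact_mod_cast hp.out.one_lt.le)
  have hC0 : (0 : ℝ) ≤ C := C.2
  have hiter : ∀ (j : ℕ) (x : X), θ' (Multiplicative.ofAdd (j : ℤ_[p])) • x =
      (fun y : X => θ (Multiplicative.ofAdd 1) • y)^[p ^ k * j] x := by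
    intro j x
    rw [iter_eq, hθ', MonoidHom.comp_apply, mulHom_ofAdd]
    congr 3
    push_cast
    ring
  have hE : ∀ u ∈ closedBall u₀ r₁, ∀ u' ∈ closedBall u₀ r₁,
      dist (e.symm u) (e.symm u') ≤ C * dist u u' := fun u hu u' hu' =>
    hC'.dist_le_mul u (hB₁ hu) u' (hB₁ hu')
  have key := local_core4 e hr₁0 hB₁ hθ'c hsrc
    (fun a u hu => by
      have := (hmem a).2 u hu
      rwa [one_smul, e.right_inv (hB₁ hu)] at this)
    (fun ε hε N₀ => by
      set A : ℝ := (C * (p : ℝ) ^ k) ^ (d + 2) with hA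
      have hA0 : 0 ≤ A := by positivity
      obtain ⟨N, hN, m, E, ρ, hρ, hcov, hosc, hdisp, hsmall⟩ :=
        hsl (ε / (A + 1)) (by positivity) (N₀ + k)
      have hNk : N - k + k = N := by omega
      have hpN : p ^ k * p ^ (N - k) = p ^ N := by rw [← pow_add, add_comm, hNk]
      have hpN' : (p : ℝ) ^ N = (p : ℝ) ^ k * (p : ℝ) ^ (N - k) := by exact_mod_cast hpN.symm
      refine ⟨N - k, by omega, m, fun i => closedBall u₀ r₁ ∩ e.symm ⁻¹' E i,
        fun i => C * (p : ℝ) ^ k * ρ i, fun i => mul_nonneg (by positivity) (hρ i), ?_, ?_, ?_, ?_⟩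
      · intro u hu
        obtain ⟨i, hi⟩ := mem_iUnion.mp (hcov (hWm u hu))
        exact mem_iUnion.mpr ⟨i, hu, hi⟩
      · rintro i u ⟨⟨hu, hui⟩, -⟩ u' ⟨⟨hu', hui'⟩, -⟩
        have h3 := hosc i _ ⟨hui, hWm u hu⟩ _ ⟨hui', hWm u' hu'⟩
        have h4 : ∑ j ∈ Finset.range (p ^ (N - k)),
            dist (act e θ' (j : ℤ_[p]) u) (act e θ' (j : ℤ_[p]) u') ≤
            C * ∑ j ∈ Finset.range (p ^ (N - k)),
              dist ((fun y : X => θ (Multiplicative.ofAdd 1) • y)^[p ^ k * j] (e.symm u))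
                ((fun y : X => θ (Multiplicative.ofAdd 1) • y)^[p ^ k * j] (e.symm u')) := by
          rw [Finset.mul_sum]
          apply Finset.sum_le_sum
          intro j _
          rw [← hiter, ← hiter]
          exact hC.dist_le_mul _ (hsrc _ u hu) _ (hsrc _ u' hu')
        have h5 : ∑ j ∈ Finset.range (p ^ (N - k)),
              dist ((fun y : X => θ (Multiplicative.ofAdd 1) • y)^[p ^ k * j] (e.symm u))
                ((fun y : X => θ (Multiplicative.ofAdd 1) • y)^[p ^ k * j] (e.symm u')) ≤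
            ∑ j ∈ Finset.range (p ^ N),
              dist ((fun y : X => θ (Multiplicative.ofAdd 1) • y)^[j] (e.symm u))
                ((fun y : X => θ (Multiplicative.ofAdd 1) • y)^[j] (e.symm u')) := by
          have hinj : InjOn (fun i : ℕ => p ^ k * i) (Finset.range (p ^ (N - k)) : Set ℕ) := by
            intro i _ i' _ hii
            exact Nat.eq_of_mul_eq_mul_left (pow_pos hp.out.pos k) hii
          rw [← Finset.sum_image (s := Finset.range (p ^ (N - k)))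
            (g := fun i : ℕ => p ^ k * i)
            (f := fun j => dist ((fun y : X => θ (Multiplicative.ofAdd 1) • y)^[j] (e.symm u))
              ((fun y : X => θ (Multiplicative.ofAdd 1) • y)^[j] (e.symm u'))) hinj]
          apply Finset.sum_le_sum_of_subset_of_nonneg
          · intro j hj
            obtain ⟨l, hl, rfl⟩ := Finset.mem_image.mp hj
            rw [Finset.mem_range] at hl ⊢
            rw [← hpN]
            exact Nat.mul_lt_mul_of_pos_left hl (pow_pos hp.out.pos k)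
          · intro j _ _
            exact dist_nonneg
        calc _ ≤ _ := h4
          _ ≤ C * ((p : ℝ) ^ N * ρ i) := mul_le_mul_of_nonneg_left (h5.trans h3) hC0
          _ = (p : ℝ) ^ (N - k) * (C * (p : ℝ) ^ k * ρ i) := by rw [hpN']; ring
      · rintro i u ⟨⟨hu, hui⟩, -⟩
        have h4 := hdisp i _ ⟨hui, hWm u hu⟩
        rw [← hpN, ← hiter] at h4
        have h5 : dist (act e θ' ((p ^ (N - k) : ℕ) : ℤ_[p]) u) u ≤
            C * dist (θ' (Multiplicative.ofAdd ((p ^ (N - k) : ℕ) : ℤ_[p])) • e.symm u)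
              (e.symm u) := by
          have h6 := hC.dist_le_mul _ (hsrc ((p ^ (N - k) : ℕ) : ℤ_[p]) u hu) (e.symm u)
            (e.symm.map_source (hB₁ hu))
          rw [e.right_inv (hB₁ hu)] at h6
          exact h6
        refine h5.trans ?_
        calc C * dist (θ' (Multiplicative.ofAdd ((p ^ (N - k) : ℕ) : ℤ_[p])) • e.symm u)
              (e.symm u) ≤ C * ((p : ℝ) ^ N * ρ i) := mul_le_mul_of_nonneg_left h4 hC0
          _ = (p : ℝ) ^ (N - k) * (C * (p : ℝ) ^ k * ρ i) := by rw [hpN']; ring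
      · have h3 : ∑ i, (C * (p : ℝ) ^ k * ρ i) ^ (d + 2) = A * ∑ i, ρ i ^ (d + 2) := by
          rw [Finset.mul_sum]
          apply Finset.sum_congr rfl
          intro i _
          rw [mul_pow, hA]
        simp only
        rw [h3]
        calc A * ∑ i, ρ i ^ (d + 2) ≤ A * (ε / (A + 1)) := mul_le_mul_of_nonneg_left hsmall hA0
          _ ≤ ε := by
              rw [mul_div_assoc', div_le_iff₀ (by positivity)]
              nlinarith)
  have h3 : e.source ∩ e ⁻¹' (ball u₀ (r₁ / 4)) ∈ 𝓝 x₀ :=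
    inter_mem (e.open_source.mem_nhds hxe)
      ((e.continuousAt hxe).preimage_mem_nhds (ball_mem_nhds _ (by positivity)))
  refine CA.mem_Oinf.mpr ⟨k, ?_⟩
  change ∀ᶠ x in 𝓝 x₀, ∀ a : ℤ_[p], θ (Multiplicative.ofAdd ((p : ℤ_[p]) ^ k * a)) • x = x
  filter_upwards [h3] with x hx a
  have h4 := key (e x) hx.2 a
  have hxc : e x ∈ closedBall u₀ r₁ :=
    ball_subset_closedBall (ball_subset_ball (by linarith) hx.2)
  unfold act at h4
  rw [e.left_inv hx.1] at h4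
  have h5 : θ' (Multiplicative.ofAdd a) • x ∈ e.source := by
    have := hsrc₁ _ (hmem a).1 (e x) hxc
    rwa [e.left_inv hx.1] at this
  exact e.injOn h5 hx.1 h4

theorem mem_Oinf_of_slow_ne {x₀ : X} (hx₀ : x₀ ∈ regPts (d + 1) X)
    {θ : Multiplicative ℤ_[p] →* G} (hθ : Continuous θ) {a : ℤ_[p]} (ha : a ≠ 0)
    (hs : SlowNear p (d + 1) (fun y : X => θ (Multiplicative.ofAdd a) • y) x₀) :
    x₀ ∈ Oinf X θ := by
  have h1 : x₀ ∈ Oinf X (θ.comp (mulHom a)) := by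
    apply mem_Oinf_of_slow (θ := θ.comp (mulHom a)) hx₀ (hθ.comp (continuous_mulHom _))
    have e1 : (θ.comp (mulHom a)) (Multiplicative.ofAdd 1) = θ (Multiplicative.ofAdd a) := by
      rw [MonoidHom.comp_apply, mulHom_ofAdd, mul_one]
    rw [e1]
    exact hs
  obtain ⟨k, hk⟩ := CA.mem_Oinf.mp h1
  change ∀ᶠ x in 𝓝 x₀, ∀ b : ℤ_[p],
    (θ.comp (mulHom a)) (Multiplicative.ofAdd ((p : ℤ_[p]) ^ k * b)) • x = x at hk
  refine CA.mem_Oinf.mpr ⟨k + a.valuation, ?_⟩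
  change ∀ᶠ x in 𝓝 x₀, ∀ b : ℤ_[p],
    θ (Multiplicative.ofAdd ((p : ℤ_[p]) ^ (k + a.valuation) * b)) • x = x
  filter_upwards [hk] with x hx b
  have hu := PadicInt.unitCoeff_spec ha
  have h2 := hx (((PadicInt.unitCoeff ha)⁻¹ : ℤ_[p]ˣ) * b)
  rw [MonoidHom.comp_apply, mulHom_ofAdd] at h2
  have e2 : a * ((p : ℤ_[p]) ^ k * (((PadicInt.unitCoeff ha)⁻¹ : ℤ_[p]ˣ) * b)) =
      (p : ℤ_[p]) ^ (k + a.valuation) * b := by
    nth_rewrite 1 [hu]
    rw [pow_add]
    have e3 : ((PadicInt.unitCoeff ha : ℤ_[p]ˣ) : ℤ_[p]) *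
        (((PadicInt.unitCoeff ha)⁻¹ : ℤ_[p]ˣ) : ℤ_[p]) = 1 := Units.mul_inv _
    linear_combination ((p : ℤ_[p]) ^ a.valuation * (p : ℤ_[p]) ^ k * b) * e3
  rwa [e2] at h2

/-- If all but countably many points of `R` are in the closure of connected subsets of
`R ∩ Oinf` as close as we like, then `R ⊆ Oinf`. -/
theorem subset_Oinf_piece {R : Set X} (hRo : IsOpen R) (hR : R ⊆ regPts (d + 1) X)
    {θ : Multiplicative ℤ_[p] →* G} (hθ : Continuous θ) {N : Set X} (hN : N.Countable)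
    (hP : ∀ x ∈ R \ N, ∀ U ∈ 𝓝 x, ∃ C ⊆ U ∩ R, IsPreconnected C ∧ x ∈ closure C ∧
      C ⊆ Oinf X θ) : R ⊆ Oinf X θ := by
  by_contra hcon
  obtain ⟨x₀, hx₀, hx₀O⟩ := not_subset.mp hcon
  obtain ⟨e, C₀, hxe, -, -⟩ := hR hx₀
  set B : Set X := R ∩ e.source with hB
  have hBo : IsOpen B := hRo.inter e.open_source
  have hx₀B : x₀ ∈ B := ⟨hx₀, hxe⟩
  have hcl : IsClosed ((Oinf X θ)ᶜ) := (isOpen_Oinf θ).isClosed_compl
  obtain ⟨hBaire, -⟩ := baire_chart e hBo inter_subset_right hcl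
  have hne : Nonempty ↥((Oinf X θ)ᶜ ∩ B) := ⟨⟨x₀, hx₀O, hx₀B⟩⟩
  have hcN : Countable ↥N := hN.to_subtype
  set K : ℕ ⊕ ↥N → Set ↥((Oinf X θ)ᶜ ∩ B) := fun i => Sum.elim
    (fun k => {y : ↥((Oinf X θ)ᶜ ∩ B) | ∀ a : ℤ_[p],
      θ (Multiplicative.ofAdd ((p : ℤ_[p]) ^ k * a)) • (y : X) = y})
    (fun z => {y : ↥((Oinf X θ)ᶜ ∩ B) | (y : X) = z}) i with hK
  have hcov : ⋃ i, K i = univ := by
    rw [eq_univ_iff_forall]
    rintro ⟨y, hyO, hyB⟩
    by_cases hyN : y ∈ N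
    · exact mem_iUnion.mpr ⟨Sum.inr ⟨y, hyN⟩, rfl⟩
    obtain ⟨C, hC, hCc, hyC, hCO⟩ := hP y ⟨hyB.1, hyN⟩ B (hBo.mem_nhds hyB)
    obtain ⟨k, hk⟩ := exists_Fx hθ hCc (fun z hz => hR (hC hz).2) hCO
    refine mem_iUnion.mpr ⟨Sum.inl k, fun b => ?_⟩
    exact closure_Fx_fixed (closure_mono hk hyC) b
  have hclosed : ∀ i, IsClosed (K i) := by
    rintro (k | z)
    · exact (CA.isClosed_fix θ k).preimage continuous_subtype_val
    · exact (isClosed_singleton (x := (z : X))).preimage continuous_subtype_val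
  obtain ⟨i, y, hy⟩ := nonempty_interior_of_iUnion_of_closed hclosed hcov
  obtain ⟨t, ht, hto, hyt⟩ := mem_interior.mp hy
  obtain ⟨O, hOo, rfl⟩ := isOpen_induced_iff.mp hto
  have hyB : (y : X) ∈ B := y.2.2
  have hfin : ∃ k : ℕ, ∀ z ∈ O ∩ B, z ∉ Oinf X θ → ∀ a : ℤ_[p],
      θ (Multiplicative.ofAdd ((p : ℤ_[p]) ^ k * a)) • z = z := by
    rcases i with k | w
    · refine ⟨k, fun z hz hzO b => ?_⟩
      exact ht (show (⟨z, hzO, hz.2⟩ : ↥((Oinf X θ)ᶜ ∩ B)) ∈ Subtype.val ⁻¹' O from hz.1) b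
    · have hsing : ∀ z ∈ O ∩ B, z ∉ Oinf X θ → z = (y : X) := by
        intro z hz hzO
        have h1 : z = (w : X) :=
          ht (show (⟨z, hzO, hz.2⟩ : ↥((Oinf X θ)ᶜ ∩ B)) ∈ Subtype.val ⁻¹' O from hz.1)
        have h2 : (y : X) = (w : X) := ht hyt
        rw [h1, h2]
      obtain ⟨C, hC, hCc, hyC⟩ := exists_segment (d := d) (hR hyB.1)
        ((hOo.inter hBo).mem_nhds ⟨hyt, hyB⟩)
      have hCO : C ⊆ Oinf X θ := by
        intro z hz
        by_contra hzO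
        exact (hC hz).2 (hsing z (hC hz).1 hzO)
      obtain ⟨k, hk⟩ := exists_Fx hθ hCc (fun z hz => hR (hC hz).1.2.1) hCO
      refine ⟨k, fun z hz hzO b => ?_⟩
      rw [hsing z hz hzO]
      exact closure_Fx_fixed (closure_mono hk hyC) b
  obtain ⟨k, hk⟩ := hfin
  exact y.2.1 (caseA hθ (U := O ∩ B) (k := k) ((hOo.inter hBo).mem_nhds ⟨hyt, hyB⟩)
    (fun z hz => hR hz.2.1) hk)

/-- **The global theorem.** -/
theorem global4 {R : Set X} (hRo : IsOpen R) (hR : R ⊆ regPts (d + 1) X)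
    (hdense : Dense R) (hconn : IsPreconnected R)
    {θ : Multiplicative ℤ_[p] →* G} (hθ : Continuous θ)
    (hs : PieceSlow p (d + 1) R
      (fun (a : {a : ℤ_[p] // a ≠ 0}) (y : X) => θ (Multiplicative.ofAdd a.1) • y)) :
    ∃ k : ℕ, ∀ a : ℤ_[p], ∀ x : X, θ (Multiplicative.ofAdd ((p : ℤ_[p]) ^ k * a)) • x = x := by
  rcases R.eq_empty_or_nonempty with hem | ⟨x₀, hx₀⟩
  · refine ⟨0, fun a x => ?_⟩
    have hX : IsEmpty X := by
      rw [hem] at hdense
      by_contra hne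
      rw [not_isEmpty_iff] at hne
      exact absurd hdense.nonempty not_nonempty_empty
    exact (hX.false x).elim
  obtain ⟨S, hS, hP⟩ := hs
  have hRO : R ⊆ Oinf X θ := subset_Oinf_piece hRo hR hθ hS fun x hx U hU => by
    obtain ⟨C, hC, hCc, hxC, hCs⟩ := hP x hx U hU
    refine ⟨C, hC, hCc, hxC, fun y hy => ?_⟩
    obtain ⟨a, ha⟩ := hCs y hy
    exact mem_Oinf_of_slow_ne (hR (hC hy).2) hθ a.2 ha
  obtain ⟨k, hk⟩ := CA.mem_Oinf.mp (hRO hx₀)
  have hsub : R ⊆ Fx θ k := CA.conn_subset_Fx (finNewman (d := d) X) hθ hRo hR hconn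
    Subset.rfl hRO hx₀ hk
  exact ⟨k, fun a x => closure_Fx_fixed (closure_mono hsub (hdense x)) a⟩

end Pool.Agent.Helper3.HS4
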