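import Pool.Agent.Helper3.HS4.Core4
import Pool.Agent.Helper3.HS4.Bad4
import Pool.Agent.Helper3.HS2.ChartCore

/-!
# The local theorem
-/

set_option autoImplicit false
set_option linter.unusedSectionVars false
set_option linter.unusedVariables false

open Set MeasureTheory Metric Filter Topology
open scoped NNReal ENNReal Function

namespace Pool.Agent.Helper3.HS4

open Pool.Agent.Helper3.HS

section cover

variable {V : Type*} [NormedAddCommGroup V] [NormedSpace ℝ V] [FiniteDimensional ℝ V]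
  [MeasurableSpace V] [BorelSpace V] {p : ℕ} [hp : Fact p.Prime]

theorem exists_cover (D : PreDat V p) {qs : ℕ → V} (hqs : DenseRange qs) {C : Set V}
    (hC : IsCompact C) (hCU : C ⊆ D.U) (hCm : ∀ z ∈ C, ∃ a, D.g a z ≠ z) :
    ∃ (M : ℕ) (n : ℕ → ℕ × ℕ) (s : ℝ) (N₀ : ℕ), 0 < s ∧
      (∀ i < M, closedBall (qs (n i).1) (1 / (((n i).2 : ℝ) + 1)) ⊆ D.U ∧
        ∀ a : ℤ_[p], IsUnit a → ∀ w ∈ closedBall (qs (n i).1) (1 / (((n i).2 : ℝ) + 1)),
          D.g a w ∉ closedBall (qs (n i).1) (1 / (((n i).2 : ℝ) + 1))) ∧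
      ∀ x ∈ C, ∀ N ≥ N₀, ∃ i < M,
        s ≤ favg D N (bmp (qs (n i).1) (1 / (((n i).2 : ℝ) + 1))) x := by
  apply hC.induction_on (p := fun C => ∃ (M : ℕ) (n : ℕ → ℕ × ℕ) (s : ℝ) (N₀ : ℕ), 0 < s ∧
      (∀ i < M, closedBall (qs (n i).1) (1 / (((n i).2 : ℝ) + 1)) ⊆ D.U ∧
        ∀ a : ℤ_[p], IsUnit a → ∀ w ∈ closedBall (qs (n i).1) (1 / (((n i).2 : ℝ) + 1)),
          D.g a w ∉ closedBall (qs (n i).1) (1 / (((n i).2 : ℝ) + 1))) ∧
      ∀ x ∈ C, ∀ N ≥ N₀, ∃ i < M,
        s ≤ favg D N (bmp (qs (n i).1) (1 / (((n i).2 : ℝ) + 1))) x)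
  · exact ⟨0, fun _ => (0, 0), 1, 0, one_pos, by simp, by simp⟩
  · rintro A B hAB ⟨M, n, s, N₀, hs, h1, h2⟩
    exact ⟨M, n, s, N₀, hs, h1, fun x hx => h2 x (hAB hx)⟩
  · rintro A B ⟨M, n, s, N₀, hs, h1, h2⟩ ⟨M', n', s', N₀', hs', h1', h2'⟩
    refine ⟨M + M', fun i => if i < M then n i else n' (i - M), min s s', max N₀ N₀',
      lt_min hs hs', ?_, ?_⟩
    · intro i hi
      simp only
      by_cases h : i < M
      · rw [if_pos h]; exact h1 i h
      · rw [if_neg h]; exact h1' _ (by omega)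
    · rintro x (hx | hx) N hN
      · obtain ⟨i, hi, hxi⟩ := h2 x hx N ((le_max_left _ _).trans hN)
        refine ⟨i, by omega, ?_⟩
        simp only
        rw [if_pos hi]
        exact (min_le_left _ _).trans hxi
      · obtain ⟨i, hi, hxi⟩ := h2' x hx N ((le_max_right _ _).trans hN)
        refine ⟨M + i, by omega, ?_⟩
        simp only
        rw [if_neg (by omega)]
        have e : M + i - M = i := by omega
        rw [e]
        exact (min_le_right _ _).trans hxi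
  · intro z hz
    obtain ⟨n, m, h1, h2, s, hs, N₀, h3⟩ := exists_data D (hCU hz) (hCm z hz) hqs
    refine ⟨_, mem_nhdsWithin_of_mem_nhds h3, 1, fun _ => (n, m), s, N₀, hs, fun i _ => ⟨h1, h2⟩,
      fun x hx N hN => ⟨0, one_pos, hx N hN⟩⟩

/-- The orbit of a compact set under the elements divisible by `p`. -/
def porb (D : PreDat V p) (B : Set V) : Set V :=
  (fun w : ℤ_[p] × V => D.g (p * w.1) w.2) '' (univ ×ˢ B)

theorem porb_compact (D : PreDat V p) {B : Set V} (hB : IsCompact B) (hBU : B ⊆ D.U) :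
    IsCompact (porb D B) := by
  unfold porb
  apply (isCompact_univ.prod hB).image_of_continuousOn
  have h1 : ContinuousOn (fun w : ℤ_[p] × V => (((p : ℤ_[p]) * w.1, w.2) : ℤ_[p] × V))
      (univ ×ˢ B) := by
    apply Continuous.continuousOn
    fun_prop
  exact D.hgj.comp (f := fun w : ℤ_[p] × V => (((p : ℤ_[p]) * w.1, w.2) : ℤ_[p] × V)) h1
    (fun w hw => ⟨mem_univ _, hBU hw.2⟩)

theorem porb_sub (D : PreDat V p) {B : Set V} (hBU : B ⊆ D.U) : porb D B ⊆ D.U := by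
  rintro _ ⟨w, hw, rfl⟩
  exact D.hgU _ _ (hBU hw.2)

theorem porb_disjoint (D : PreDat V p) {B : Set V} (hBU : B ⊆ D.U)
    (hB : ∀ a : ℤ_[p], IsUnit a → ∀ w ∈ B, D.g a w ∉ B) {j : ℕ} (hj : 0 < j) (hjp : j < p) :
    Disjoint (D.g (j : ℤ_[p]) '' porb D B) (porb D B) := by
  rw [Set.disjoint_left]
  rintro _ ⟨_, ⟨⟨b, w⟩, hw, rfl⟩, rfl⟩ ⟨⟨b', w'⟩, hw', heq⟩
  simp only at heq hw hw'
  have hwU := hBU hw.2
  have hwU' := hBU hw'.2
  simp only at hwU hwU'
  rw [← D.hgadd _ _ w hwU] at heq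
  have h1 := congrArg (D.g (-(p * b'))) heq
  rw [D.inv _ hwU', ← D.hgadd _ _ w hwU] at h1
  have e : -((p : ℤ_[p]) * b') + ((j : ℤ_[p]) + p * b) = (j : ℤ_[p]) - p * (b' - b) := by ring
  rw [e] at h1
  exact hB _ (isUnit_sub hj hjp (b' - b)) w hw.2 (h1 ▸ hw'.2)

theorem mem_porb (D : PreDat V p) {B : Set V} (hBU : B ⊆ D.U) {x : V} (hx : x ∈ D.U) {a : ℤ_[p]}
    (ha : D.g a x ∈ B) : ∃ j < p, x ∈ D.g (j : ℤ_[p]) '' porb D B := by
  obtain ⟨j, hj, b, hb⟩ := exists_digit (-a)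
  refine ⟨j, hj, D.g (p * b) (D.g a x), ⟨(b, D.g a x), ⟨mem_univ _, ha⟩, rfl⟩, ?_⟩
  rw [← D.hgadd _ _ _ (hBU ha), ← hb, D.inv a hx]

end cover

variable {d : ℕ} {X : Type*} [MetricSpace X] {G : Type*} [Group G] [TopologicalSpace G]
  [IsTopologicalGroup G] [MulAction G X] [ContinuousSMul G X] {p : ℕ} [hp : Fact p.Prime]

theorem pos_of_close {e : OpenPartialHomeomorph X (Fin (d + 1) → ℝ)}
    {θ : Multiplicative ℤ_[p] →* G} {c : Fin (d + 1) → ℝ} {σ : ℝ} (hθ : Continuous θ)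
    (hσ : 0 < σ) (hB : closedBall c σ ⊆ e.target)
    (hsrc : ∀ a : ℤ_[p], ∀ u ∈ closedBall c σ, θ (Multiplicative.ofAdd a) • e.symm u ∈ e.source)
    (hclose : ∀ a : ℤ_[p], ∀ u ∈ closedBall c σ, dist (act e θ a u) u < σ / 8) (a : ℤ_[p]) :
    ∀ X' ⊆ (cpre hθ hσ hB hsrc).U, IsOpen X' → ∀ x ∈ X',
      HasDeg volume X' ((cpre hθ hσ hB hsrc).g a) ((cpre hθ hσ hB hsrc).g a x) 1 := by
  set D := cpre hθ hσ hB hsrc with hD
  have hcl : closure (ball c σ) = closedBall c σ := closure_ball c hσ.ne'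
  have hgim : ∀ O ⊆ ball c σ, D.g a '' O = act e θ a '' O := fun O hO =>
    image_congr fun x hx => cpre_g hθ hσ hB hsrc (ball_subset_closedBall (hO hx)) a
  obtain ⟨s, -, hs⟩ := exists_sign volume isOpen_ball isBounded_ball (convex_ball c σ).isPreconnected
    ⟨c, mem_ball_self hσ⟩ (D.hg a)
    (by
      rw [hcl]
      intro x hx z hz h
      rw [cpre_g hθ hσ hB hsrc hx, cpre_g hθ hσ hB hsrc hz] at h
      exact act_injOn hB hsrc a hx hz h)
    (by
      rw [hgim _ Subset.rfl]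
      exact smul_chart_isOpen hB (θ (Multiplicative.ofAdd a)) (hsrc a) _ Subset.rfl isOpen_ball)
  have hcb : c ∈ closedBall c σ := mem_closedBall_self hσ.le
  have hyc : dist (D.g a c) c < σ / 8 := by
    rw [hD, cpre_g hθ hσ hB hsrc hcb]
    exact hclose a c hcb
  have h1 : HasDeg volume (ball c σ) (D.g a) (D.g a c) s :=
    hs _ Subset.rfl isOpen_ball c (mem_ball_self hσ)
  have h2 : HasDeg volume (ball c σ) (D.g a) (D.g a c) 1 := by
    apply HasDeg.homotopy volume isOpen_ball isBounded_ball continuousOn_id (D.hg a).continuousOn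
      (HasDeg.id volume isOpen_ball isBounded_ball (y := D.g a c) (by
        rw [mem_ball]; linarith))
    intro x hx t ht heq
    have hxc : x ∈ closedBall c σ := by
      rw [← hcl]; exact frontier_subset_closure hx
    have hxd : dist x c = σ := by
      rw [frontier_ball c hσ.ne', mem_sphere] at hx
      exact hx
    have h4 := (hclose a x hxc).le
    rw [← cpre_g hθ hσ hB hsrc hxc, ← hD] at h4
    simp only [id] at heq
    have h5 : x - D.g a c = -(t • (D.g a x - x)) := by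
      have : (1 - t) • (x - D.g a c) + t • (D.g a x - D.g a c) =
          (x - D.g a c) + t • (D.g a x - x) := by module
      rw [this] at heq
      exact eq_neg_of_add_eq_zero_left heq
    have h6 : dist x (D.g a c) ≤ σ / 8 := by
      rw [dist_eq_norm, h5, norm_neg, norm_smul, Real.norm_of_nonneg ht.1, ← dist_eq_norm]
      calc t * dist (D.g a x) x ≤ 1 * (σ / 8) := mul_le_mul ht.2 h4 dist_nonneg zero_le_one
        _ = σ / 8 := one_mul _
    have h7 := dist_triangle x (D.g a c) c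
    linarith
  have h3 : s = 1 := HasDeg.unique volume isOpen_ball isBounded_ball (D.hg a).continuousOn h1 h2
  intro X' hX' hX'o x hx
  rw [← h3]
  exact hs X' (hX'.trans fun u hu => hu.1) hX'o x hx

/-- The core of the local theorem. -/
theorem local_core4 (e : OpenPartialHomeomorph X (Fin (d + 1) → ℝ)) {u₀ : Fin (d + 1) → ℝ}
    {r₁ : ℝ} (hr₁0 : 0 < r₁) (hB₁ : closedBall u₀ r₁ ⊆ e.target)
    {θ : Multiplicative ℤ_[p] →* G} (hθ : Continuous θ)
    (hsrc : ∀ a : ℤ_[p], ∀ u ∈ closedBall u₀ r₁, θ (Multiplicative.ofAdd a) • e.symm u ∈ e.source)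
    (hθ5 : ∀ a : ℤ_[p], ∀ u ∈ closedBall u₀ r₁, dist (act e θ a u) u < r₁ / 8)
    (hslow : ∀ ε : ℝ, 0 < ε → ∀ N₀ : ℕ, ∃ N ≥ N₀, ∃ m : ℕ,
      ∃ E : Fin m → Set (Fin (d + 1) → ℝ), ∃ ρ : Fin m → ℝ, (∀ i, 0 ≤ ρ i) ∧
      closedBall u₀ r₁ ⊆ ⋃ i, E i ∧
      (∀ i, ∀ u ∈ E i ∩ closedBall u₀ r₁, ∀ u' ∈ E i ∩ closedBall u₀ r₁,
        ∑ j ∈ Finset.range (p ^ N), dist (act e θ (j : ℤ_[p]) u) (act e θ (j : ℤ_[p]) u') ≤
          (p : ℝ) ^ N * ρ i) ∧
      (∀ i, ∀ u ∈ E i ∩ closedBall u₀ r₁,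
        dist (act e θ ((p ^ N : ℕ) : ℤ_[p]) u) u ≤ (p : ℝ) ^ N * ρ i) ∧
      ∑ i, ρ i ^ (d + 2) ≤ ε) :
    ∀ u ∈ ball u₀ (r₁ / 4), ∀ a, act e θ a u = u := by
  by_contra hcon
  push Not at hcon
  obtain ⟨u₁, hu₁b, b₁, hne⟩ := hcon
  have hact : ContinuousOn (fun q : ℤ_[p] × (Fin (d + 1) → ℝ) => act e θ q.1 q.2)
      (univ ×ˢ closedBall u₀ r₁) := act_continuousOn hθ hB₁ hsrc
  set D' := cpre hθ hr₁0 hB₁ hsrc with hD'
  set D : Dat (volume : Measure (Fin (d + 1) → ℝ)) p :=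
    { toPreDat := D', hpos := pos_of_close hθ hr₁0 hB₁ hsrc hθ5 } with hD
  -- the invariant set
  set U := invSet e θ u₀ r₁ with hU
  have hDU : D.U = U := rfl
  have hUo : IsOpen U := invSet_isOpen hθ hB₁ hsrc
  have hUQ : U ⊆ ball u₀ r₁ := fun u hu => hu.1
  have hUb : Bornology.IsBounded U := isBounded_ball.subset hUQ
  have hUcl : closure U ⊆ closedBall u₀ r₁ :=
    closure_minimal (hUQ.trans ball_subset_closedBall) isClosed_closedBall
  have hUc : U ⊆ closedBall u₀ r₁ := hUQ.trans ball_subset_closedBall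
  have hUhalf : ball u₀ (r₁ / 2) ⊆ U := by
    intro u hu
    rw [mem_ball] at hu
    have hu' : u ∈ closedBall u₀ r₁ := by rw [mem_closedBall]; linarith
    refine ⟨by rw [mem_ball]; linarith, fun a => ?_⟩
    rw [mem_ball]
    have h3 := hθ5 a u hu'
    have h4 := dist_triangle (act e θ a u) u u₀
    linarith
  have hg : ∀ a, ∀ u ∈ closedBall u₀ r₁, D.g a u = act e θ a u := fun a u hu =>
    cpre_g hθ hr₁0 hB₁ hsrc hu a
  -- the sequence of scales
  have hseq : ∀ k : ℕ, ∃ N ≥ k, ∃ m : ℕ, ∃ E : Fin m → Set (Fin (d + 1) → ℝ),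
      ∃ ρ : Fin m → ℝ, (∀ i, 0 ≤ ρ i) ∧ closedBall u₀ r₁ ⊆ ⋃ i, E i ∧
      (∀ i, ∀ u ∈ E i ∩ closedBall u₀ r₁, ∀ u' ∈ E i ∩ closedBall u₀ r₁,
        ∑ j ∈ Finset.range (p ^ N), dist (D.g (j : ℤ_[p]) u) (D.g (j : ℤ_[p]) u') ≤
          (p : ℝ) ^ N * ρ i) ∧
      (∀ i, ∀ u ∈ E i ∩ closedBall u₀ r₁, disp D.toPreDat N u ≤ ρ i) ∧
      6 ^ (d + 2) * ∑ i, ρ i ^ (d + 2) ≤ (1 / 2 : ℝ) ^ k := by
    intro k
    obtain ⟨N, hN, m, E, ρ, hρ, hcov, h1, h2, h3⟩ := hslow ((1 / 2 : ℝ) ^ k / 6 ^ (d + 2))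
      (by positivity) k
    refine ⟨N, hN, m, E, ρ, hρ, hcov, ?_, ?_, ?_⟩
    · intro i u hu u' hu'
      refine le_trans (le_of_eq ?_) (h1 i u hu u' hu')
      apply Finset.sum_congr rfl
      intro j _
      rw [hg _ u hu.2, hg _ u' hu'.2]
    · intro i u hu
      unfold disp
      rw [inv_mul_le_iff₀ (pow_pos' p N), hg _ u hu.2]
      exact h2 i u hu
    · rw [le_div_iff₀ (by positivity)] at h3
      linarith
  choose N hNk m E ρ hρ hEcov hosc hdisp hsmall using hseq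
  set qs : ℕ → (Fin (d + 1) → ℝ) := TopologicalSpace.denseSeq (Fin (d + 1) → ℝ) with hqs
  have hqsd : DenseRange qs := TopologicalSpace.denseRange_denseSeq _
  set F : ℕ → (Fin (d + 1) → ℝ) → (Fin (d + 1) → ℝ) := fun k =>
    favg D.toPreDat (N k) (fun u => u) with hF
  set b : ℕ × ℕ → ℕ → (Fin (d + 1) → ℝ) → ℝ := fun i k =>
    favg D.toPreDat (N k) (bmp (qs i.1) (1 / ((i.2 : ℝ) + 1))) with hb
  set τ : ℕ → (Fin (d + 1) → ℝ) → ℝ := fun k => disp D.toPreDat (N k) with hτd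
  have hae := ae_ae_bad (F := F) (b := b) (c := u₀) (r := r₁) (τ := τ) (by
    intro i k
    refine (volume_bad_le (hρ k) (hEcov k) ?_ ?_ ?_).trans (ENNReal.ofReal_le_ofReal (hsmall k))
    · intro l u hu u' hu'
      exact dist_favg_le (fun u v => le_rfl) (hosc k l u hu u' hu')
    · intro l u hu u' hu'
      exact dist_favg_le (bmp_lip _ _) (hosc k l u hu u' hu')
    · intro l u hu
      exact hdisp k l u hu)
  -- the moved points
  set Mv : Set (Fin (d + 1) → ℝ) := ball u₀ (r₁ / 4) ∩ {u | ∃ a, act e θ a u ≠ u} with hMv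
  have hMo : IsOpen Mv := by
    have h4 : Mv = ⋃ a : ℤ_[p], (ball u₀ (r₁ / 4) ∩
        (fun u => act e θ a u - u) ⁻¹' {0}ᶜ) := by
      ext u
      simp only [hMv, mem_inter_iff, mem_iUnion, mem_preimage, mem_compl_iff, mem_singleton_iff,
        sub_eq_zero]
      constructor
      · rintro ⟨h5, a, ha⟩; exact ⟨a, h5, ha⟩
      · rintro ⟨a, h5, ha⟩; exact ⟨h5, a, ha⟩
    rw [h4]
    apply isOpen_iUnion
    intro a
    apply ContinuousOn.isOpen_inter_preimage _ isOpen_ball isOpen_compl_singleton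
    have h5 : Continuous (fun x : Fin (d + 1) → ℝ => ((a, x) : ℤ_[p] × (Fin (d + 1) → ℝ))) := by
      fun_prop
    have h6 : ContinuousOn (fun u => act e θ a u) (closedBall u₀ r₁) :=
      hact.comp h5.continuousOn (fun x hx => ⟨mem_univ _, hx⟩)
    exact (h6.sub continuousOn_id).mono
      ((ball_subset_ball (by linarith)).trans ball_subset_closedBall)
  obtain ⟨y, hyM, hy⟩ : ∃ y ∈ Mv, ∀ i, ∀ᵐ t ∂(volume : Measure ℝ),
      ∀ᶠ k in atTop, (y, t) ∉ Bad (F k) (b i k) u₀ r₁ (τ k) := by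
    have h3 : (volume.restrict Mv) ≠ 0 := by
      rw [Ne, Measure.restrict_eq_zero]
      exact (hMo.measure_pos volume ⟨u₁, hu₁b, b₁, hne⟩).ne'
    have h4 : (ae (volume.restrict Mv)).NeBot := ae_neBot.mpr h3
    obtain ⟨y, h5, h6⟩ := ((ae_restrict_of_ae (s := Mv) hae).and
      (ae_restrict_mem hMo.measurableSet)).exists
    exact ⟨y, h6, h5⟩
  have hyb : dist y u₀ < r₁ / 4 := hyM.1
  -- the fixed points
  set Φ : Set (Fin (d + 1) → ℝ) := {z | z ∈ closedBall u₀ (r₁ / 2) ∧ ∀ a, act e θ a z = z} with hΦ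
  have hsub2 : closedBall u₀ (r₁ / 2) ⊆ closedBall u₀ r₁ := closedBall_subset_closedBall (by linarith)
  have hgjc : Continuous (fun q : ℤ_[p] × (Fin (d + 1) → ℝ) => D.g q.1 q.2) := by
    change Continuous (fun q : ℤ_[p] × (Fin (d + 1) → ℝ) => act e θ q.1 (clamp u₀ r₁ q.2))
    exact hact.comp_continuous (f := fun q : ℤ_[p] × (Fin (d + 1) → ℝ) => (q.1, clamp u₀ r₁ q.2))
      (continuous_fst.prodMk ((continuous_clamp u₀ r₁).comp continuous_snd))
      (fun q => ⟨mem_univ _, clamp_mem hr₁0 _⟩)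
  have hΦcl : IsClosed Φ := by
    have h1 : Φ = closedBall u₀ (r₁ / 2) ∩ ⋂ a, {z | D.g a z = z} := by
      ext z
      simp only [hΦ, mem_ofPred_eq, mem_inter_iff, mem_iInter]
      constructor
      · rintro ⟨h1, h2⟩
        exact ⟨h1, fun a => by rw [hg a z (hsub2 h1)]; exact h2 a⟩
      · rintro ⟨h1, h2⟩
        exact ⟨h1, fun a => by rw [← hg a z (hsub2 h1)]; exact h2 a⟩
    rw [h1]
    exact isClosed_closedBall.inter (isClosed_iInter fun a => isClosed_eq (D.hg a) continuous_id)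
  have hyΦ : y ∉ Φ := fun h => by
    obtain ⟨a, ha⟩ := hyM.2
    exact ha (h.2 a)
  obtain ⟨η, hη, hηball⟩ := Metric.isOpen_iff.mp hΦcl.isOpen_compl y hyΦ
  -- equicontinuity
  obtain ⟨δ, hδ, hequi⟩ : ∃ δ > 0, ∀ x ∈ closedBall u₀ r₁, ∀ z ∈ closedBall u₀ r₁, dist x z < δ →
      ∀ a, dist (D.g a x) (D.g a z) < η / 2 := by
    have hK : IsCompact ((univ : Set ℤ_[p]) ×ˢ closedBall u₀ r₁) :=
      isCompact_univ.prod (isCompact_closedBall _ _)
    have h1 := hK.uniformContinuousOn_of_continuous hgjc.continuousOn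
    rw [Metric.uniformContinuousOn_iff] at h1
    obtain ⟨δ, hδ, h2⟩ := h1 (η / 2) (by positivity)
    refine ⟨δ, hδ, fun x hx z hz hd a => ?_⟩
    exact h2 (a, x) ⟨mem_univ _, hx⟩ (a, z) ⟨mem_univ _, hz⟩ (by
      rw [Prod.dist_eq]
      simp only [dist_self]
      exact max_lt hδ hd)
  -- the compact set of moved points
  set C : Set (Fin (d + 1) → ℝ) := {x | x ∈ closedBall u₀ (3 * r₁ / 8) ∧ ∀ z ∈ Φ, δ ≤ dist x z}
    with hC
  have hCc : IsCompact C := by
    have h1 : C = closedBall u₀ (3 * r₁ / 8) ∩ ⋂ z ∈ Φ, {x | δ ≤ dist x z} := by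
      ext x
      simp [hC]
    rw [h1]
    apply (isCompact_closedBall _ _).inter_right
    exact isClosed_biInter fun z _ => isClosed_le continuous_const (continuous_id.dist continuous_const)
  have hCU : C ⊆ D.U := by
    intro x hx
    apply hUhalf
    have := mem_closedBall.mp hx.1
    rw [mem_ball]
    linarith
  have hCm : ∀ x ∈ C, ∃ a, D.g a x ≠ x := by
    intro x hx
    by_contra hcon
    push Not at hcon
    have h1 := mem_closedBall.mp hx.1
    have hx2 : x ∈ closedBall u₀ (r₁ / 2) := by rw [mem_closedBall]; linarith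
    have h2 : x ∈ Φ := ⟨hx2, fun a => by rw [← hg a x (hsub2 hx2)]; exact hcon a⟩
    have h3 := hx.2 x h2
    rw [dist_self] at h3
    linarith
  obtain ⟨M, n, s, N₀, hs, hdata, hcover⟩ := exists_cover D.toPreDat hqsd hCc hCU hCm
  -- the levels
  have hlev : ∀ i, ∃ t : ℝ, 0 < t ∧ t < s ∧
      ∀ᶠ k in atTop, (y, t) ∉ Bad (F k) (b (n i) k) u₀ r₁ (τ k) := by
    intro i
    have h3 : (volume.restrict (Ioo 0 s)) ≠ 0 := by
      rw [Ne, Measure.restrict_eq_zero, Real.volume_Ioo, ENNReal.ofReal_eq_zero, not_le]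
      linarith
    have h4 : (ae (volume.restrict (Ioo 0 s))).NeBot := ae_neBot.mpr h3
    obtain ⟨t, h5, h6⟩ := ((ae_restrict_of_ae (s := Ioo 0 s) (hy (n i))).and
      (ae_restrict_mem measurableSet_Ioo)).exists
    exact ⟨t, h6.1, h6.2, h5⟩
  choose t ht0 hts ht using hlev
  have hev : ∀ᶠ k in atTop, ∀ i ∈ Finset.range M, (y, t i) ∉ Bad (F k) (b (n i) k) u₀ r₁ (τ k) :=
    (Finset.eventually_all _).mpr fun i _ => ht i
  obtain ⟨k, hk, hkN⟩ := (hev.and (eventually_ge_atTop N₀)).exists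
  have hFcont : Continuous (F k) := favg_continuous continuous_id
  have hFclose : ∀ u ∈ closedBall u₀ r₁, dist (F k u) u ≤ r₁ / 8 := by
    intro u hu
    apply dist_favg_const
    intro j _
    rw [hg _ u hu]
    exact (hθ5 _ u hu).le
  have hfr : ∀ u ∈ frontier U, u ∈ closedBall u₀ r₁ ∧ r₁ / 2 ≤ dist u u₀ := by
    intro u hu
    refine ⟨hUcl (frontier_subset_closure hu), ?_⟩
    by_contra hlt
    push Not at hlt
    rw [hUo.frontier_eq] at hu
    exact hu.2 (hUhalf (mem_ball.mpr hlt))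
  have hyU : y ∈ U := hUhalf (ball_subset_ball (by linarith) hyM.1)
  have hdeg : HasDeg volume U (F k) y 1 := by
    apply HasDeg.homotopy volume hUo hUb continuousOn_id hFcont.continuousOn
      (HasDeg.id volume hUo hUb hyU)
    intro u hu t ht heq
    obtain ⟨huB, hud⟩ := hfr u hu
    have h4 := hFclose u huB
    simp only [id] at heq
    have h5 : u - y = -(t • (F k u - u)) := by
      have : (1 - t) • (u - y) + t • (F k u - y) = (u - y) + t • (F k u - u) := by module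
      rw [this] at heq
      exact eq_neg_of_add_eq_zero_left heq
    have h6 : dist u y ≤ r₁ / 8 := by
      rw [dist_eq_norm, h5, norm_neg, norm_smul, Real.norm_of_nonneg ht.1, ← dist_eq_norm]
      calc t * dist (F k u) u ≤ 1 * (r₁ / 8) := mul_le_mul ht.2 h4 dist_nonneg zero_le_one
        _ = r₁ / 8 := one_mul _
    have h7 := dist_triangle u y u₀
    linarith
  obtain ⟨mm, hmm⟩ := step_core D (F := F k) hFcont (M := M) (b := fun i => b (n i) k)
    (fun i => favg_continuous (bmp_continuous _ _)) (t := t) (τ := τ k)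
    (fun x => disp_nonneg _ _ _) (y := y)
    (fun x hx => dist_favg_step hx (fun u v => le_rfl))
    (fun i hi x hx => by
      rw [← Real.dist_eq]
      exact dist_favg_step hx (bmp_lip _ _))
    (fun i hi x hx hle => by
      by_contra hcon
      rw [not_lt] at hcon
      exact hk i (Finset.mem_range.mpr hi) ⟨x, hUc hx, hcon, hle⟩)
    (P := fun i => porb D.toPreDat (closedBall (qs (n i).1) (1 / (((n i).2 : ℝ) + 1))))
    (fun i hi => porb_compact D.toPreDat (isCompact_closedBall _ _) (hdata i hi).1)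
    (fun i hi => porb_sub D.toPreDat (hdata i hi).1)
    (fun i hi j hj hjp => porb_disjoint D.toPreDat (hdata i hi).1 (hdata i hi).2 hj hjp)
    (fun i hi x hx hlt => by
      obtain ⟨j, hj⟩ := exists_pos_of_favg (ht0 i).le hlt
      exact mem_porb D.toPreDat (hdata i hi).1 hx (mem_of_bmp_pos hj))
    (fun x hx heq => by
      have hxc := hUc hx
      have h1 : dist x y ≤ r₁ / 8 := by
        rw [← heq, dist_comm]
        exact hFclose x hxc
      have hxC : x ∈ C := by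
        refine ⟨?_, fun z hz => ?_⟩
        · have := dist_triangle x y u₀
          rw [mem_closedBall]
          linarith
        · by_contra hlt
          rw [not_le] at hlt
          have hzc := hsub2 hz.1
          have h2 : dist (F k x) z ≤ η / 2 := by
            apply dist_favg_const
            intro j _
            have h3 := hequi x hxc z hzc hlt (j : ℤ_[p])
            rw [hg _ z hzc, hz.2] at h3
            exact h3.le
          rw [heq, dist_comm] at h2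
          exact hηball (mem_ball.mpr (by linarith)) hz
      obtain ⟨i, hi, hle⟩ := hcover x hxC (N k) (hkN.trans (hNk k))
      exact ⟨i, hi, (hts i).trans_le hle⟩)
    (fun x hx heq => by
      obtain ⟨huB, hud⟩ := hfr x hx
      have h1 := hFclose x huB
      rw [heq] at h1
      have h2 := dist_triangle x y u₀
      rw [dist_comm] at h1
      linarith) hdeg
  have hp2 := hp.out.two_le
  have h3 : (1 : ℤ) = p * mm := by exact_mod_cast hmm
  have h4 : (p : ℤ) ∣ 1 := ⟨mm, h3⟩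
  have h5 := Int.le_of_dvd one_pos h4
  omega

end Pool.Agent.Helper3.HS4
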